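import Mathlib
import Pool.Agent.Zk12.BS.Stm

/-!
# Birational sections of almost all quadratic twists: the theorem over the fixed field
-/

set_option autoImplicit false
set_option linter.all false

open NumberField IsDedekindDomain

namespace Pool.Agent.Zk47.BS

open Pool.Agent.TH954 Pool.Agent.Zk12 Pool.Agent.Zk12.BS Pool.Agent.Y157.PS

section

variable {L : Type} [Field L] [Algebra ℚ L] {p : ℕ} [Fact p.Prime] (pl : Plc ℚ L ℚ_[p])

/-- the valuation ring of the elements with a `p`-adic integer as value -/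
def intO : ValuationSubring L where
  carrier := {z | ∃ c, pl.val z c ∧ ‖c‖ ≤ 1}
  mul_mem' := by
    rintro a b ⟨c, hc, hc1⟩ ⟨d, hd, hd1⟩
    refine ⟨c * d, hc.mul hd, ?_⟩
    rw [norm_mul]
    exact mul_le_one₀ hc1 (norm_nonneg _) hd1
  one_mem' := ⟨1, Plc.val_one, by rw [norm_one]⟩
  add_mem' := by
    rintro a b ⟨c, hc, hc1⟩ ⟨d, hd, hd1⟩
    exact ⟨c + d, hc.add hd, le_trans (Padic.nonarchimedean c d) (max_le hc1 hd1)⟩
  zero_mem' := ⟨0, Plc.val_zero, by rw [norm_zero]; exact zero_le_one⟩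
  neg_mem' := by
    rintro a ⟨c, hc, hc1⟩
    refine ⟨0 - c, ?_, ?_⟩
    · rw [← zero_sub]
      exact Plc.val_zero.sub hc
    · rw [zero_sub, norm_neg]
      exact hc1
  mem_or_inv_mem' := by
    intro z
    by_cases hz : z ∈ pl.W
    · obtain ⟨c, hc⟩ := Plc.val_of_mem hz
      by_cases h1 : ‖c‖ ≤ 1
      · exact Or.inl ⟨c, hc, h1⟩
      · right
        have hc0 : c ≠ 0 := by
          rintro rfl
          rw [norm_zero] at h1
          exact h1 zero_le_one
        refine ⟨c⁻¹, hc.inv hc0, ?_⟩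
        rw [norm_inv]
        exact inv_le_one_of_one_le₀ (le_of_lt (not_le.1 h1))
    · right
      exact ⟨0, Plc.val_inv_of_notMem hz, by rw [norm_zero]; exact zero_le_one⟩

theorem mem_intO {z : L} : z ∈ intO pl ↔ ∃ c, pl.val z c ∧ ‖c‖ ≤ 1 := Iff.rfl

theorem intO_W (z : intO pl) : (z : L) ∈ pl.W := by
  obtain ⟨c, hc, -⟩ := (mem_intO pl).1 z.2
  exact hc.mem

theorem intO_norm (z : intO pl) : ‖pl.ρ ⟨(z : L), intO_W pl z⟩‖ ≤ 1 := by
  obtain ⟨c, ⟨h, rfl⟩, hc1⟩ := (mem_intO pl).1 z.2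
  exact hc1

/-- the value as a homomorphism -/
noncomputable def intHom : intO pl →+* ℤ_[p] where
  toFun z := ⟨pl.ρ ⟨(z : L), intO_W pl z⟩, intO_norm pl z⟩
  map_one' := by
    apply Subtype.ext
    change pl.ρ ⟨1, _⟩ = 1
    rw [← map_one pl.ρ]
    rfl
  map_mul' a b := by
    apply Subtype.ext
    change pl.ρ ⟨(a : L) * b, _⟩ = pl.ρ ⟨(a : L), _⟩ * pl.ρ ⟨(b : L), _⟩
    rw [← map_mul]
    rfl
  map_zero' := by
    apply Subtype.ext
    change pl.ρ ⟨0, _⟩ = 0
    rw [← map_zero pl.ρ]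
    rfl
  map_add' a b := by
    apply Subtype.ext
    change pl.ρ ⟨(a : L) + b, _⟩ = pl.ρ ⟨(a : L), _⟩ + pl.ρ ⟨(b : L), _⟩
    rw [← map_add]
    rfl

instance intHom_local : IsLocalHom ((PadicInt.toZMod (p := p)).comp (intHom pl)) := by
  constructor
  intro z hz
  have h1 : PadicInt.toZMod (intHom pl z) ≠ 0 := hz.ne_zero
  have h2 : ‖intHom pl z‖ = 1 := by
    rcases lt_or_eq_of_le (PadicInt.norm_le_one (intHom pl z)) with h | h
    · exfalso
      apply h1
      rw [← RingHom.mem_ker, PadicInt.ker_toZMod, ← PadicInt.mem_nonunits] at *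
      exact h
    · exact h
  have h3 : ‖pl.ρ ⟨(z : L), intO_W pl z⟩‖ = 1 := h2
  have h4 : pl.ρ ⟨(z : L), intO_W pl z⟩ ≠ 0 := by
    intro h
    rw [h, norm_zero] at h3
    exact zero_ne_one h3
  have h5 : pl.val (z : L)⁻¹ (pl.ρ ⟨(z : L), intO_W pl z⟩)⁻¹ := Plc.val.inv ⟨intO_W pl z, rfl⟩ h4
  have hz0 : (z : L) ≠ 0 := by
    intro h
    apply h4
    have h6 : (⟨(z : L), intO_W pl z⟩ : pl.W) = 0 := Subtype.ext h
    rw [h6, map_zero]
  have h6 : (z : L)⁻¹ ∈ intO pl := ⟨_, h5, by rw [norm_inv, h3, inv_one]⟩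
  exact IsUnit.of_mul_eq_one ⟨(z : L)⁻¹, h6⟩ (Subtype.ext (mul_inv_cancel₀ hz0))

theorem intO_finite : Finite (IsLocalRing.ResidueField (intO pl)) :=
  Finite.of_injective _ (IsLocalRing.ResidueField.lift
    ((PadicInt.toZMod (p := p)).comp (intHom pl))).injective

theorem val_intP (n : ℤ) : pl.val (n : L) (n : ℚ_[p]) := by
  have := Plc.val_alg (pl := pl) (n : ℚ)
  rwa [map_intCast, map_intCast] at this

theorem intO_six (h5 : 5 ≤ p) [CharZero L] : IsU (intO pl) (6 : L) := by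
  have h6 : pl.val (6 : L) (6 : ℚ_[p]) := by exact_mod_cast val_intP pl 6
  have hn : ‖(6 : ℚ_[p])‖ = 1 := by
    have h1 : ‖((6 : ℤ) : ℚ_[p])‖ ≤ 1 := Padic.norm_int_le_one 6
    rcases lt_or_eq_of_le h1 with h | h
    · exfalso
      rw [Padic.norm_intCast_lt_one_iff] at h
      have h2 : p ∣ 6 := by exact_mod_cast h
      have hp : p.Prime := Fact.out
      have h3 : p ∣ 2 * 3 := h2
      rcases (Nat.Prime.dvd_mul hp).1 h3 with h4 | h4
      · have := Nat.le_of_dvd (by norm_num) h4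
        omega
      · have := Nat.le_of_dvd (by norm_num) h4
        omega
    · exact_mod_cast h
  have h60 : (6 : ℚ_[p]) ≠ 0 := by
    intro h
    rw [h, norm_zero] at hn
    exact zero_ne_one hn
  exact ⟨by norm_num, ⟨6, h6, hn.le⟩, ⟨6⁻¹, h6.inv h60, by rw [norm_inv, hn, inv_one]⟩⟩

theorem intO_isU {z : L} (h : IsU (intO pl) z) : ∃ c, pl.val z c ∧ ‖c‖ = 1 := by
  obtain ⟨h0, ⟨c, hc, hc1⟩, ⟨d, hd, hd1⟩⟩ := h
  refine ⟨c, hc, le_antisymm hc1 ?_⟩
  have h1 := hc.mul hd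
  rw [mul_inv_cancel₀ h0] at h1
  have h2 := h1.unique Plc.val_one
  have h3 : ‖c‖ * ‖d‖ = 1 := by rw [← norm_mul, h2, norm_one]
  calc (1 : ℝ) = ‖c‖ * ‖d‖ := h3.symm
    _ ≤ ‖c‖ * 1 := mul_le_mul_of_nonneg_left hd1 (norm_nonneg _)
    _ = ‖c‖ := mul_one _

end

theorem zmod3 : ∀ z : ZMod 3, z ^ 2 ≠ -4 := by decide

/-- `-4` is not a square in `ℚ_3` -/
theorem no_sqrt3 [Fact (Nat.Prime 3)] (d : ℚ_[3]) : d ^ 2 ≠ -4 := by
  intro h
  have h1 : ‖d‖ ≤ 1 := by
    have h2 : ‖d‖ ^ 2 ≤ 1 := by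
      rw [← norm_pow, h]
      exact_mod_cast Padic.norm_int_le_one (p := 3) (-4)
    by_contra h3
    have h4 : 1 < ‖d‖ ^ 2 := one_lt_pow₀ (not_le.1 h3) two_ne_zero
    linarith
  let d' : ℤ_[3] := ⟨d, h1⟩
  have h2 : d' ^ 2 = -4 := by
    apply Subtype.ext
    push_cast
    exact h
  have h3 := congrArg (PadicInt.toZMod (p := 3)) h2
  rw [map_pow, map_neg, map_ofNat] at h3
  exact zmod3 _ h3

/-- the value of `(t - 1) / (t + 1)` -/
theorem val_f {L C : Type} [Field L] [Field C] [Algebra ℚ L] [Algebra ℚ C] (pl : Plc ℚ L C)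
    {t : L} {c : C} (h : pl.val t c) (hc : c + 1 ≠ 0) :
    pl.val ((t - 1) / (t + 1)) ((c - 1) / (c + 1)) := by
  rw [div_eq_mul_inv, div_eq_mul_inv]
  exact (h.sub Plc.val_one).mul ((h.add Plc.val_one).inv hc)

theorem val_f_inf {L C : Type} [Field L] [Field C] [Algebra ℚ L] [Algebra ℚ C] (pl : Plc ℚ L C)
    {t : L} (h : t ∉ pl.W) : pl.val ((t - 1) / (t + 1)) 1 := by
  have h0 : t ≠ 0 := by
    rintro rfl
    exact h (zero_mem _)
  have h1 := Plc.val_inv_of_notMem h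
  have h2 : (t - 1) / (t + 1) = (1 - t⁻¹) * (1 + t⁻¹)⁻¹ := by
    by_cases h3 : t + 1 = 0
    · have h4 : t = -1 := eq_neg_of_add_eq_zero_left h3
      rw [h4]
      norm_num
    · have h5 : 1 + t⁻¹ ≠ 0 := by
        intro h6
        apply h3
        have h7 : t * (1 + t⁻¹) = 0 := by rw [h6, mul_zero]
        rw [mul_add, mul_one, mul_inv_cancel₀ h0] at h7
        exact h7
      rw [div_eq_iff h3, mul_assoc, ← div_eq_inv_mul, eq_comm]
      field_simp
  have h3 := (Plc.val_one.sub h1).mul ((Plc.val_one.add h1).inv (by rw [add_zero]; exact one_ne_zero))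
  rw [← h2, sub_zero, add_zero, inv_one, mul_one] at h3
  exact h3

theorem bl2 (hGP : S_GP) (hUT : S_UT) : S_BL2 := by
  intro L _ _ _ k hk hC pl t D ht hK h1 h2 h3 h4 p hp
  have ht1 : t - 1 ≠ 0 := by
    intro h
    apply ht
    rw [sub_eq_zero.1 h]
    exact one_mem k
  have ht2 : t + 1 ≠ 0 := by
    intro h
    apply ht
    rw [eq_neg_of_add_eq_zero_left h]
    exact neg_mem (one_mem k)
  have hf0 : (t - 1) / (t + 1) ≠ 0 := div_ne_zero ht1 ht2
  have h2' := core' hk hC (pl 2) ht h1 h2 h3 h4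
  obtain ⟨q1, e1⟩ := h1
  obtain ⟨q2, e2⟩ := h2
  obtain ⟨q3, e3⟩ := h3
  obtain ⟨q4, e4⟩ := h4
  have key := hUT L pl ((t - 1) / (t + 1)) hf0 hK (fun p hp => ?_) p
  · -- the value of `t` is infinite
    intro htW
    obtain ⟨c, hc⟩ := Plc.val_of_mem htW
    have h5 := key.mul (hc.add Plc.val_one)
    rw [div_mul_cancel₀ _ ht2] at h5
    have h6 := h5.unique (hc.sub Plc.val_one)
    have h7 : (2 : ℚ_[p]) = 0 := by linear_combination h6
    exact two_ne_zero h7
  · rcases lt_or_ge p 5 with hp5 | hp5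
    · have hp2 : p = 2 ∨ p = 3 := by
        have := hp.out.two_le
        interval_cases p
        · exact Or.inl rfl
        · exact Or.inr rfl
        · exact absurd hp.out (by norm_num)
      rcases hp2 with rfl | rfl
      · exact ⟨1, one_ne_zero, val_f_inf (pl 2) h2', fun h => by omega, fun _ => rfl⟩
      · by_cases htW : t ∈ (pl 3).W
        · obtain ⟨c, hc⟩ := Plc.val_of_mem htW
          have sq : ∀ (u v : L) (a b : ℚ_[3]), (pl 3).val u a → (pl 3).val v b →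
              (∃ q, u * v = q ^ 2) → ∃ d, a * b = d ^ 2 := by
            rintro u v a b hu hv ⟨q, hq⟩
            have h5 := hu.mul hv
            rw [hq] at h5
            obtain ⟨d, hd⟩ := Plc.val_of_mem (Plc.mem_of_pow_mem (pl := pl 3) (n := 2)
              (by norm_num) h5.mem)
            exact ⟨d, h5.unique (hd.pow 2)⟩
          have v3 : (pl 3).val (3 : L) (3 : ℚ_[3]) := by exact_mod_cast val_intP (pl 3) 3
          have hc1 : c - 1 ≠ 0 := by
            intro h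
            obtain ⟨d, hd⟩ := sq _ _ _ _ (hc.add Plc.val_one) (hc.sub v3)
              ⟨D * (q2 * q3), by rw [e2, e3]; ring⟩
            apply no_sqrt3 d
            rw [← hd, sub_eq_zero.1 h]
            norm_num
          have hc2 : c + 1 ≠ 0 := by
            intro h
            obtain ⟨d, hd⟩ := sq _ _ _ _ (hc.sub Plc.val_one) (hc.add v3)
              ⟨D * (q1 * q4), by rw [e1, e4]; ring⟩
            apply no_sqrt3 d
            rw [← hd, eq_neg_of_add_eq_zero_left h]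
            norm_num
          exact ⟨(c - 1) / (c + 1), div_ne_zero hc1 hc2, val_f (pl 3) hc hc2, fun h => by omega,
            fun h => by omega⟩
        · exact ⟨1, one_ne_zero, val_f_inf (pl 3) htW, fun h => by omega, fun h => by omega⟩
    · have h6 := hGP L k hk hC (pl 2) t D ht ⟨q1, e1⟩ ⟨q2, e2⟩ ⟨q3, e3⟩ ⟨q4, e4⟩ (intO (pl p))
        (intO_finite (pl p)) (intO_six (pl p) hp5)
      obtain ⟨c, hc, hc1⟩ := intO_isU (pl p) h6
      refine ⟨c, ?_, hc, fun _ => hc1, fun h => by omega⟩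
      intro h
      rw [h, norm_zero] at hc1
      exact zero_ne_one hc1

end Pool.Agent.Zk47.BS
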