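import Mathlib
import Pool.Agent.Zk47.BS.Bl

/-!
# Birational sections of almost all quadratic twists: the theorem over the fixed field, two branch
points
-/

set_option autoImplicit false
set_option linter.all false

open NumberField IsDedekindDomain

namespace Pool.Agent.Zk47.BS

open Pool.Agent.TH954 Pool.Agent.Zk12 Pool.Agent.Zk12.BS Pool.Agent.Y157.PS

theorem t4_cases {a : ℤ} (h : a ∈ T4) : a = 1 ∨ a = -1 ∨ a = 3 ∨ a = -3 := by
  unfold T4 at h
  simpa using h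

/-- `12` is not a square in `ℚ_3` -/
theorem no_sqrt12 [Fact (Nat.Prime 3)] (d : ℚ_[3]) : d ^ 2 ≠ 12 := by
  intro h
  have h12 : ‖(12 : ℚ_[3])‖ = 1 / 3 := by
    have h1 : ‖((3 : ℕ) : ℚ_[3])‖ = ((3 : ℕ) : ℝ)⁻¹ := Padic.norm_p
    have h2 : ‖((4 : ℤ) : ℚ_[3])‖ = 1 := by
      rcases lt_or_eq_of_le (Padic.norm_int_le_one (p := 3) 4) with h | h
      · rw [Padic.norm_intCast_lt_one_iff] at h
        exfalso
        norm_num at h
      · exact h
    have h3 : (12 : ℚ_[3]) = ((3 : ℕ) : ℚ_[3]) * ((4 : ℤ) : ℚ_[3]) := by norm_num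
    rw [h3, norm_mul, h1, h2]
    norm_num
  have h1 : ‖d‖ ^ 2 = 1 / 3 := by rw [← norm_pow, h, h12]
  have hd : d ≠ 0 := by
    rintro rfl
    rw [norm_zero] at h1
    norm_num at h1
  obtain ⟨n, hn⟩ : ∃ n : ℤ, ‖d‖ = (3 : ℝ) ^ (-n) := ⟨d.valuation, by
    rw [Padic.norm_eq_zpow_neg_valuation hd]
    norm_num⟩
  rw [hn, ← zpow_natCast, ← zpow_mul] at h1
  have h2 : (1 / 3 : ℝ) = (3 : ℝ) ^ (-1 : ℤ) := by norm_num
  rw [h2] at h1
  have h3 := zpow_right_injective₀ (a := (3 : ℝ)) (by norm_num) (by norm_num) h1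
  push_cast at h3
  omega

/-- the value of `(t - a) / (t - b)` -/
theorem val_g {L : Type} [Field L] [Algebra ℚ L] {p : ℕ} [Fact p.Prime] (pl : Plc ℚ L ℚ_[p])
    {t : L} {c : ℚ_[p]} (h : pl.val t c) (a b : ℤ) (hc : c - b ≠ 0) :
    pl.val ((t - a) / (t - b)) ((c - a) / (c - b)) := by
  rw [div_eq_mul_inv, div_eq_mul_inv]
  exact (h.sub (val_intP pl a)).mul ((h.sub (val_intP pl b)).inv hc)

theorem val_g_inf {L : Type} [Field L] [Algebra ℚ L] {p : ℕ} [Fact p.Prime] (pl : Plc ℚ L ℚ_[p])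
    {t : L} (h : t ∉ pl.W) (a b : ℤ) (htb : t - b ≠ 0) : pl.val ((t - a) / (t - b)) 1 := by
  have h0 : t ≠ 0 := by
    rintro rfl
    exact h (zero_mem _)
  have h1 := Plc.val_inv_of_notMem h
  have h5 : 1 - (b : L) * t⁻¹ ≠ 0 := by
    intro h6
    apply htb
    have h7 : (1 - (b : L) * t⁻¹) * t = 0 := by rw [h6, zero_mul]
    rw [sub_mul, one_mul, mul_assoc, inv_mul_cancel₀ h0, mul_one] at h7
    exact h7
  have h2 : (t - a) / (t - b) = (1 - (a : L) * t⁻¹) * (1 - (b : L) * t⁻¹)⁻¹ := by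
    rw [← div_eq_mul_inv, div_eq_div_iff htb h5]
    field_simp
  have h3 := (Plc.val_one.sub ((val_intP pl a).mul h1)).mul
    ((Plc.val_one.sub ((val_intP pl b).mul h1)).inv (by
      rw [mul_zero, sub_zero]
      exact one_ne_zero))
  rw [← h2, mul_zero, mul_zero, sub_zero, inv_one, mul_one] at h3
  exact h3

/-- the value of `t` at the place over `3` -/
theorem three_ne {L : Type} [Field L] [CharZero L] [Algebra ℚ L] [Fact (Nat.Prime 3)]
    (pl : Plc ℚ L ℚ_[3]) {t D : L} (h1 : ∃ q, t - 1 = D * q ^ 2) (h2 : ∃ q, t + 1 = D * q ^ 2)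
    (h3 : ∃ q, t - 3 = D * q ^ 2) (h4 : ∃ q, t + 3 = D * q ^ 2) {c : ℚ_[3]} (hc : pl.val t c)
    {a : ℤ} (ha : a ∈ T4) : c - a ≠ 0 := by
  obtain ⟨q1, e1⟩ := h1
  obtain ⟨q2, e2⟩ := h2
  obtain ⟨q3, e3⟩ := h3
  obtain ⟨q4, e4⟩ := h4
  have sq : ∀ (u v : L) (a b : ℚ_[3]), pl.val u a → pl.val v b →
      (∃ q, u * v = q ^ 2) → ∃ d, a * b = d ^ 2 := by
    rintro u v a b hu hv ⟨q, hq⟩
    have h5 := hu.mul hv
    rw [hq] at h5
    obtain ⟨d, hd⟩ := Plc.val_of_mem (Plc.mem_of_pow_mem (pl := pl) (n := 2)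
      (by norm_num) h5.mem)
    exact ⟨d, h5.unique (hd.pow 2)⟩
  have v3 : pl.val (3 : L) (3 : ℚ_[3]) := by exact_mod_cast val_intP pl 3
  obtain ⟨d, hd⟩ := sq _ _ _ _ (hc.add Plc.val_one) (hc.sub v3)
    ⟨D * (q2 * q3), by rw [e2, e3]; ring⟩
  obtain ⟨d', hd'⟩ := sq _ _ _ _ (hc.sub Plc.val_one) (hc.add v3)
    ⟨D * (q1 * q4), by rw [e1, e4]; ring⟩
  intro h
  rcases t4_cases ha with rfl | rfl | rfl | rfl
  · apply no_sqrt3 d
    rw [← hd, sub_eq_zero.1 h]
    norm_num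
  · apply no_sqrt3 d'
    rw [← hd', sub_eq_zero.1 h]
    norm_num
  · apply no_sqrt12 d'
    rw [← hd', sub_eq_zero.1 h]
    norm_num
  · apply no_sqrt12 d
    rw [← hd, sub_eq_zero.1 h]
    norm_num

theorem bl3 (hGP : S_GP2) (hUT : S_UT) : S_BL3 := by
  intro L _ _ _ k hk hC pl t D ht hK h1 h2 h3 h4 p hp
  obtain ⟨a, ha, b, hb, hab, hK⟩ := hK
  have hne : ∀ m : ℤ, t - m ≠ 0 := by
    intro m h
    apply ht
    rw [sub_eq_zero.1 h]
    exact intCast_mem k m
  have hf0 : (t - a) / (t - b) ≠ 0 := div_ne_zero (hne a) (hne b)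
  have h2' := core' hk hC (pl 2) ht h1 h2 h3 h4
  have key := hUT L pl ((t - a) / (t - b)) hf0 hK (fun p hp => ?_) p
  · -- the value of `t` is infinite
    intro htW
    obtain ⟨c, hc⟩ := Plc.val_of_mem htW
    have h5 := key.mul (hc.sub (val_intP (pl p) b))
    rw [div_mul_cancel₀ _ (hne b)] at h5
    have h6 := h5.unique (hc.sub (val_intP (pl p) a))
    have h7 : (a : ℚ_[p]) = (b : ℚ_[p]) := by linear_combination h6
    exact hab (by exact_mod_cast h7)
  · rcases lt_or_ge p 5 with hp5 | hp5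
    · have hp2 : p = 2 ∨ p = 3 := by
        have := hp.out.two_le
        interval_cases p
        · exact Or.inl rfl
        · exact Or.inr rfl
        · exact absurd hp.out (by norm_num)
      rcases hp2 with rfl | rfl
      · exact ⟨1, one_ne_zero, val_g_inf (pl 2) h2' a b (hne b), fun h => by omega, fun _ => rfl⟩
      · by_cases htW : t ∈ (pl 3).W
        · obtain ⟨c, hc⟩ := Plc.val_of_mem htW
          have hc1 := three_ne (pl 3) h1 h2 h3 h4 hc ha
          have hc2 := three_ne (pl 3) h1 h2 h3 h4 hc hb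
          exact ⟨(c - a) / (c - b), div_ne_zero hc1 hc2, val_g (pl 3) hc a b hc2,
            fun h => by omega, fun h => by omega⟩
        · exact ⟨1, one_ne_zero, val_g_inf (pl 3) htW a b (hne b), fun h => by omega,
            fun h => by omega⟩
    · have h6 := hGP L k hk hC (pl 2) t D ht h1 h2 h3 h4 (intO (pl p))
        (intO_finite (pl p)) (intO_six (pl p) hp5) a ha b hb
      obtain ⟨c, hc, hc1⟩ := intO_isU (pl p) h6
      refine ⟨c, ?_, hc, fun _ => hc1, fun h => by omega⟩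
      intro h
      rw [h, norm_zero] at hc1
      exact zero_ne_one hc1

/-- the version with one quotient only follows -/
theorem bl2' (hGP : S_GP2) (hUT : S_UT) : S_BL2 := by
  intro L _ _ _ k hk hC pl t D ht hK h1 h2 h3 h4 p hp
  refine bl3 hGP hUT L k hk hC pl t D ht ⟨1, by decide, -1, by decide, by decide,
    fun n hn => ?_⟩ h1 h2 h3 h4 p
  obtain ⟨c, w, h⟩ := hK n hn
  refine ⟨c, w, ?_⟩
  rw [← h]
  push_cast
  rw [sub_neg_eq_add]

end Pool.Agent.Zk47.BS
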