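import Mathlib
import Pool.Agent.Zk47.BS.Bl3
import Pool.Agent.Zk12.Two

/-!
# Birational sections of almost all quadratic twists: the values of the coordinate at all places
-/

set_option autoImplicit false
set_option linter.all false

open Polynomial NumberField IsDedekindDomain IntermediateField

namespace Pool.Agent.Zk47.BS

open Pool.Agent.W620.SC Pool.Agent.TH954 Pool.Agent.Y158.GR Pool.Agent.Zk12 Pool.Agent.Zk12.BS
  Pool.Agent.Y157.PS

attribute [-instance] DivisionRing.toRatAlgebra SubfieldClass.instSMulRat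
attribute [local instance 1] DivisionRing.toRatAlgebra

/-- change of the values of a place -/
def mapPlc {K M C C' : Type} [Field K] [Field M] [Field C] [Field C'] [Algebra K M] [Algebra K C]
    [Algebra K C'] (pl : Plc K M C) (f : C →ₐ[K] C') : Plc K M C' where
  W := pl.W
  ρ := (f : C →+* C').comp pl.ρ
  loc := fun x hx => pl.loc x fun h => hx (by
    rw [RingHom.comp_apply, h, map_zero])
  comm := fun c => by
    obtain ⟨h1, h2⟩ := pl.comm c
    refine ⟨h1, ?_⟩
    rw [RingHom.comp_apply, h2]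
    exact f.commutes c

section

variable {F M B : Type} [Field F] [Field M] [Field B] [Algebra ℚ F] [Algebra F M] [Algebra ℚ M]
  [Algebra ℚ B] [IsScalarTower ℚ F M] [IsAlgClosure ℚ B] [Algebra.IsAlgebraic F M]

/-- the values at all the local points -/
theorem all_val (hGP : S_GP2) (hUT : S_UT) (s : GalSection ℚ F M B)
    (hR : RootN (s.j : B →+* M))
    (P : ∀ v : HeightOneSpectrum (𝓞 ℚ), Plc ℚ M (AlgebraicClosure (v.adicCompletion ℚ)))
    (hP : ∀ v, s.GivenBy (v.adicCompletion ℚ) (P v)) {x : F} (hx : Transcendental ℚ x) {K : Type}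
    (E : K → ℚ) (i : K) (hAt : ∀ l l', l ≠ i → l' ≠ i → ∃ γ : M, (∀ g, s.s g γ = γ) ∧
      γ ^ 2 = algebraMap F M ((x - algebraMap ℚ F (E l)) * (x - algebraMap ℚ F (E l')) *
        algebraMap ℚ F ((E i - E l) * (E i - E l'))))
    (l : Fin 4 → K) (hl : ∀ j, l j ≠ i) (hEl : ∀ j, E (l j) ≠ E i) (z δ : ℚ) (hδ : δ ≠ 0)
    (hAP : ∀ j : Fin 4, (E (l j) - E i)⁻¹ = z + (j : ℕ) * δ)
    (hKu : ∃ j j' : Fin 4, j ≠ j' ∧ ∀ n : ℕ, 0 < n → ∃ (c : ℚ) (w : M), (∀ g, s.s g w = w) ∧
      algebraMap F M ((x - algebraMap ℚ F (E (l j))) / (x - algebraMap ℚ F (E (l j'))) *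
        algebraMap ℚ F ((E (l j') - E i) / (E (l j) - E i))) = algebraMap ℚ M c * w ^ n) :
    ∀ v, (P v).val (algebraMap F M (x - algebraMap ℚ F (E i))) 0 := by
  haveI : Algebra.IsAlgebraic ℚ B := IsAlgClosure.isAlgebraic
  haveI : CharZero B := charZero_of_injective_algebraMap (algebraMap ℚ B).injective
  haveI : Normal ℚ B := IsAlgClosure.normal ℚ B
  haveI hchF : CharZero F := charZero_of_injective_algebraMap (algebraMap ℚ F).injective
  haveI hchM : CharZero M := charZero_of_injective_algebraMap (algebraMap ℚ M).injective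
  haveI hchL : CharZero (fixL s) := charZero_of_injective_algebraMap
    (algebraMap ℚ (fixL s)).injective
  haveI hcv : ∀ v : HeightOneSpectrum (𝓞 ℚ), CharZero (v.adicCompletion ℚ) := fun v =>
    charZero_of_injective_algebraMap (algebraMap ℚ (v.adicCompletion ℚ)).injective
  let sA : (B ≃ₐ[ℚ] B) →* RingAut M := (toRingAutHom F M).comp s.s
  let φ : fixL s →+* M := algebraMap (fixL s) M
  have hSD : SD (s.j : B →+* M) sA := ⟨fun σ c => s.sec σ c, fun w => gal_cont s.s s.cont w⟩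
  have hFx : Fxd sA φ := ⟨fun z σ => z.2 σ, fun z hz => ⟨⟨z, hz⟩, rfl⟩⟩
  have hC : ClsE (kk (s.j : B →+* M) φ) := clsE_rootN hR hSD hFx
  have hk : ∀ y : fixL s, y ^ 2 ∈ kk (s.j : B →+* M) φ → y ∈ kk (s.j : B →+* M) φ :=
    fun y => kk_sq
  have hkQ : ∀ q : ℚ, algebraMap ℚ (fixL s) q ∈ kk (s.j : B →+* M) φ := by
    intro q
    refine mem_kk.2 ⟨algebraMap ℚ B q, ?_⟩
    change s.j (algebraMap ℚ B q) = algebraMap (fixL s) M (algebraMap ℚ (fixL s) q)
    rw [s.j.commutes]
    rfl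
  -- the elements
  let X : fixL s := ⟨algebraMap F M x, F_fixL s x⟩
  have hXk : X ∉ kk (s.j : B →+* M) φ := by
    intro h
    obtain ⟨c, hc⟩ := mem_kk.1 h
    have h1 : s.j c = algebraMap F M x := hc
    have h2 : IsAlgebraic ℚ (algebraMap F M x) := by
      rw [← h1]
      exact (Algebra.IsAlgebraic.isAlgebraic (R := ℚ) c).algHom s.j
    exact (transcendental_algebraMap_iff (R := ℚ) (algebraMap F M).injective (a := x)).2 hx h2
  have hXe : ∀ q : ℚ, X - algebraMap ℚ (fixL s) q ≠ 0 := by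
    intro q h
    apply hXk
    rw [sub_eq_zero.1 h]
    exact hkQ q
  have hinj : Function.Injective (algebraMap ℚ (fixL s)) := (algebraMap ℚ (fixL s)).injective
  have hδL : algebraMap ℚ (fixL s) δ ≠ 0 := by
    rw [Ne, _root_.map_eq_zero]
    exact hδ
  have hγ : ∀ l l', l ≠ i → l' ≠ i → ∃ γ : fixL s,
      γ ^ 2 = (X - algebraMap ℚ (fixL s) (E l)) * (X - algebraMap ℚ (fixL s) (E l')) *
        ((algebraMap ℚ (fixL s) (E i) - algebraMap ℚ (fixL s) (E l)) *
          (algebraMap ℚ (fixL s) (E i) - algebraMap ℚ (fixL s) (E l'))) := by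
    intro l l' h1 h2
    obtain ⟨γ, h3, h4⟩ := hAt l l' h1 h2
    refine ⟨⟨γ, h3⟩, Subtype.ext ?_⟩
    change γ ^ 2 = (algebraMap F M x - algebraMap ℚ M (E l)) *
      (algebraMap F M x - algebraMap ℚ M (E l')) * ((algebraMap ℚ M (E i) - algebraMap ℚ M (E l)) *
          (algebraMap ℚ M (E i) - algebraMap ℚ M (E l')))
    rw [h4]
    simp only [map_mul, map_sub, ← IsScalarTower.algebraMap_apply ℚ F M]
  set u : fixL s := (X - algebraMap ℚ (fixL s) (E i))⁻¹ with hu
  set T : fixL s := 2 * (u - algebraMap ℚ (fixL s) z) / algebraMap ℚ (fixL s) δ - 3 with hT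
  have hdj : ∀ j, algebraMap ℚ (fixL s) (E (l j)) - algebraMap ℚ (fixL s) (E i) ≠ 0 := by
    intro j
    rw [← map_sub, Ne, _root_.map_eq_zero, sub_eq_zero]
    exact hEl j
  have hT' : ∀ j : Fin 4, T + 3 - 2 * ((j : ℕ) : fixL s) =
      -(2 / algebraMap ℚ (fixL s) δ) * ((X - algebraMap ℚ (fixL s) (E (l j))) /
        ((X - algebraMap ℚ (fixL s) (E i)) *
          (algebraMap ℚ (fixL s) (E (l j)) - algebraMap ℚ (fixL s) (E i)))) := by
    intro j
    have h1 := hdj j
    have h2 := congrArg (algebraMap ℚ (fixL s)) (hAP j)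
    rw [map_inv₀, map_sub, map_add, map_mul, map_natCast] at h2
    have h3 : ((j : ℕ) : fixL s) * algebraMap ℚ (fixL s) δ =
        (algebraMap ℚ (fixL s) (E (l j)) - algebraMap ℚ (fixL s) (E i))⁻¹ -
          algebraMap ℚ (fixL s) z := by rw [h2]; ring
    have h4 := hXe (E i)
    have h5 : 2 * ((j : ℕ) : fixL s) = 2 * ((algebraMap ℚ (fixL s) (E (l j)) -
        algebraMap ℚ (fixL s) (E i))⁻¹ - algebraMap ℚ (fixL s) z) /
          algebraMap ℚ (fixL s) δ := by
      rw [← h3]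
      field_simp
    rw [h5, hT, hu]
    field_simp
    ring
  have hq : ∀ j : Fin 4, ∃ q, T + 3 - 2 * ((j : ℕ) : fixL s) = (T + 3) * q ^ 2 := by
    intro j
    obtain ⟨γ, hγ'⟩ := hγ (l j) (l 0) (hl j) (hl 0)
    have h0 := hT' 0
    have hz : ((((0 : Fin 4) : ℕ)) : fixL s) = 0 := by simp
    rw [hz, mul_zero, sub_zero] at h0
    have d1 := hdj j
    have d2 := hdj 0
    have d3 := hXe (E i)
    have d4 := hXe (E (l 0))
    refine ⟨γ / ((X - algebraMap ℚ (fixL s) (E (l 0))) *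
      (algebraMap ℚ (fixL s) (E (l j)) - algebraMap ℚ (fixL s) (E i))), ?_⟩
    rw [hT' j, h0, div_pow, hγ']
    field_simp
    ring
  have hTk : T ∉ kk (s.j : B →+* M) φ := by
    intro h
    have h2m : (2 : fixL s) ∈ kk (s.j : B →+* M) φ := by
      have := natCast_mem (kk (s.j : B →+* M) φ) 2
      rwa [Nat.cast_ofNat] at this
    have h3m : (3 : fixL s) ∈ kk (s.j : B →+* M) φ := by
      have := natCast_mem (kk (s.j : B →+* M) φ) 3
      rwa [Nat.cast_ofNat] at this
    have h1 : u = (T + 3) * algebraMap ℚ (fixL s) δ / 2 + algebraMap ℚ (fixL s) z := by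
      rw [hT]
      field_simp
      ring
    have h2 : u ∈ kk (s.j : B →+* M) φ := by
      rw [h1]
      exact add_mem (div_mem (mul_mem (add_mem h h3m) (hkQ δ)) h2m) (hkQ z)
    apply hXk
    have h3 : X = u⁻¹ + algebraMap ℚ (fixL s) (E i) := by
      rw [hu, inv_inv]
      ring
    rw [h3]
    exact add_mem (inv_mem h2) (hkQ _)
  -- Kummer theory
  have hT4 : ∀ j : Fin 4, (2 * ((j : ℕ) : ℤ) - 3) ∈ T4 := by decide
  have hTj : ∀ j : Fin 4, T - ((2 * ((j : ℕ) : ℤ) - 3 : ℤ) : fixL s) =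
      T + 3 - 2 * ((j : ℕ) : fixL s) := by
    intro j
    push_cast
    ring
  obtain ⟨j, j', hjj, hKu⟩ := hKu
  have hKum : ∃ a ∈ T4, ∃ b ∈ T4, a ≠ b ∧ ∀ n : ℕ, 0 < n → ∃ (c : ℚ) (w : fixL s),
      (T - (a : fixL s)) / (T - (b : fixL s)) = algebraMap ℚ (fixL s) c * w ^ n := by
    refine ⟨_, hT4 j, _, hT4 j', ?_, fun n hn => ?_⟩
    · intro h
      apply hjj
      apply Fin.ext
      omega
    · obtain ⟨c, w, hw, h1⟩ := hKu n hn
      refine ⟨c, ⟨w, hw⟩, ?_⟩
      rw [hTj, hTj, hT' j, hT' j']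
      have e1 := hXe (E (l j))
      have e2 := hXe (E (l j'))
      have e3 := hXe (E i)
      have e4 := hdj j
      have e5 := hdj j'
      have h2 : -(2 / algebraMap ℚ (fixL s) δ) * ((X - algebraMap ℚ (fixL s) (E (l j))) /
          ((X - algebraMap ℚ (fixL s) (E i)) *
            (algebraMap ℚ (fixL s) (E (l j)) - algebraMap ℚ (fixL s) (E i)))) /
          (-(2 / algebraMap ℚ (fixL s) δ) * ((X - algebraMap ℚ (fixL s) (E (l j'))) /
          ((X - algebraMap ℚ (fixL s) (E i)) *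
            (algebraMap ℚ (fixL s) (E (l j')) - algebraMap ℚ (fixL s) (E i))))) =
          (X - algebraMap ℚ (fixL s) (E (l j))) / (X - algebraMap ℚ (fixL s) (E (l j'))) *
            ((algebraMap ℚ (fixL s) (E (l j')) - algebraMap ℚ (fixL s) (E i)) /
              (algebraMap ℚ (fixL s) (E (l j)) - algebraMap ℚ (fixL s) (E i))) := by
        field_simp
      rw [h2]
      apply Subtype.ext
      change (algebraMap F M x - algebraMap ℚ M (E (l j))) /
        (algebraMap F M x - algebraMap ℚ M (E (l j'))) *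
          ((algebraMap ℚ M (E (l j')) - algebraMap ℚ M (E i)) /
            (algebraMap ℚ M (E (l j)) - algebraMap ℚ M (E i))) = algebraMap ℚ M c * w ^ n
      rw [← h1]
      simp only [map_mul, map_sub, map_div₀, ← IsScalarTower.algebraMap_apply ℚ F M]
  -- the places
  have hTW : ∀ v, T ∉ (plcL (hP v)).W := by
    intro v
    obtain ⟨q, rfl⟩ := (Rat.HeightOneSpectrum.primesEquiv (R := 𝓞 ℚ)).symm.surjective v
    have key := bl3 hGP hUT (fixL s) (kk (s.j : B →+* M) φ) hk hC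
      (fun p hp => mapPlc (plcL (hP ((Rat.HeightOneSpectrum.primesEquiv (R := 𝓞 ℚ)).symm
        ⟨p, hp.out⟩)))
        ((Padic.adicCompletionEquiv (𝓞 ℚ) ⟨p, hp.out⟩).symm :
          (((Rat.HeightOneSpectrum.primesEquiv (R := 𝓞 ℚ)).symm ⟨p, hp.out⟩).adicCompletion ℚ)
            →ₐ[ℚ] ℚ_[p])) T (T + 3) hTk hKum ?_ ?_ ?_ ⟨1, by ring⟩
    · haveI : Fact (Nat.Prime (q : ℕ)) := ⟨q.2⟩
      exact key (q : ℕ)
    · obtain ⟨r, hq2⟩ := hq 2
      refine ⟨r, ?_⟩
      rw [← hq2]
      have : (((2 : Fin 4) : ℕ) : fixL s) = 2 := by norm_num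
      rw [this]
      ring
    · obtain ⟨r, hq2⟩ := hq 1
      refine ⟨r, ?_⟩
      rw [← hq2]
      have : (((1 : Fin 4) : ℕ) : fixL s) = 1 := by norm_num
      rw [this]
      ring
    · obtain ⟨r, hq2⟩ := hq 3
      refine ⟨r, ?_⟩
      rw [← hq2]
      have : (((3 : Fin 4) : ℕ) : fixL s) = 3 := by norm_num
      rw [this]
      ring
  intro v
  have huW : u ∉ (plcL (hP v)).W := by
    intro h
    apply hTW v
    have hW : ∀ q : ℚ, algebraMap ℚ (fixL s) q ∈ (plcL (hP v)).W := fun q =>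
      (Plc.val_alg (pl := plcL (hP v)) q).mem
    have h2m : (2 : fixL s) ∈ (plcL (hP v)).W := by
      have := hW 2
      rwa [map_ofNat] at this
    have h3m : (3 : fixL s) ∈ (plcL (hP v)).W := by
      have := hW 3
      rwa [map_ofNat] at this
    have h1 : T = 2 * (u - algebraMap ℚ (fixL s) z) * algebraMap ℚ (fixL s) δ⁻¹ - 3 := by
      rw [hT, map_inv₀]
      ring
    rw [h1]
    exact sub_mem (mul_mem (mul_mem h2m (sub_mem h (hW z))) (hW _)) h3m
  have hfin := plcL_val (Plc.val_inv_of_notMem huW)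
  rw [map_zero] at hfin
  have h6 : ((u⁻¹ : fixL s) : M) = algebraMap F M (x - algebraMap ℚ F (E i)) := by
    rw [hu, inv_inv, map_sub, ← IsScalarTower.algebraMap_apply ℚ F M]
    rfl
  rw [h6] at hfin
  exact hfin

end

end Pool.Agent.Zk47.BS
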