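import Mathlib
import Pool.Agent.Zk47.BS.Sel
import Pool.Agent.Y158.GR.Gen

/-!
# Liftable sections of almost all quadratic twists: the values of the coordinate at all places
-/

set_option autoImplicit false
set_option linter.all false

open Polynomial NumberField IsDedekindDomain IntermediateField

namespace Pool.Agent.Zk47.BS

open Pool.Agent.W620.SC Pool.Agent.TH954 Pool.Agent.Y158.GR Pool.Agent.Zk12 Pool.Agent.Zk12.BS
  Pool.Agent.Y157.PS

attribute [-instance] DivisionRing.toRatAlgebra SubfieldClass.instSMulRat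
attribute [local instance 1] DivisionRing.toRatAlgebra

/-- the theorem over the fixed field `L`, with places of a larger field `L'` and Kummer theory in
`L'` -/
theorem bl4 (hGP : S_GP2) (hUT : S_UT) (L L' : Type) [Field L] [CharZero L] [Algebra ℚ L]
    [Field L'] [CharZero L'] [Algebra ℚ L'] (Φ : L →ₐ[ℚ] L') (k : Subfield L)
    (hk : ∀ y : L, y ^ 2 ∈ k → y ∈ k) (hC : ClsE k)
    (pl : ∀ (p : ℕ) [Fact p.Prime], Plc ℚ L' ℚ_[p]) (t D : L) (ht : t ∉ k)
    (hK : ∃ a ∈ T4, ∃ b ∈ T4, a ≠ b ∧ ∀ n : ℕ, 0 < n → ∃ (c : ℚ) (w : L'),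
      Φ ((t - (a : ℤ)) / (t - (b : ℤ))) = algebraMap ℚ L' c * w ^ n)
    (h1 : ∃ q, t - 1 = D * q ^ 2) (h2 : ∃ q, t + 1 = D * q ^ 2) (h3 : ∃ q, t - 3 = D * q ^ 2)
    (h4 : ∃ q, t + 3 = D * q ^ 2) (p : ℕ) [hp : Fact p.Prime] :
    Φ t ∉ (pl p).W := by
  have hΦ : ∀ (p : ℕ) [Fact p.Prime] (c : ℚ), (Φ : L →+* L') (algebraMap ℚ L c) =
      algebraMap ℚ L' c := fun p _ c => Φ.commutes c
  let ql : ∀ (p : ℕ) [Fact p.Prime], Plc ℚ L ℚ_[p] := fun p _ =>
    resPlc (Φ : L →+* L') (fun c => Φ.commutes c) (pl p)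
  have hql : ∀ (p : ℕ) [Fact p.Prime] (x : L) (c : ℚ_[p]), (ql p).val x c ↔ (pl p).val (Φ x) c :=
    fun p _ x c => Iff.rfl
  obtain ⟨a, ha, b, hb, hab, hK⟩ := hK
  have hne : ∀ m : ℤ, t - m ≠ 0 := by
    intro m h
    apply ht
    rw [sub_eq_zero.1 h]
    exact intCast_mem k m
  have hf0 : Φ ((t - a) / (t - b)) ≠ 0 := by
    rw [Ne, _root_.map_eq_zero]
    exact div_ne_zero (hne a) (hne b)
  have h2' := core' hk hC (ql 2) ht h1 h2 h3 h4
  have key := hUT L' pl (Φ ((t - a) / (t - b))) hf0 hK (fun p hp => ?_) p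
  · -- the value of `t` is infinite
    intro htW
    have htW' : t ∈ (ql p).W := htW
    obtain ⟨c, hc⟩ := Plc.val_of_mem htW'
    have h5 := ((hql p _ _).2 key).mul (hc.sub (val_intP (ql p) b))
    rw [div_mul_cancel₀ _ (hne b)] at h5
    have h6 := h5.unique (hc.sub (val_intP (ql p) a))
    have h7 : (a : ℚ_[p]) = (b : ℚ_[p]) := by linear_combination h6
    exact hab (by exact_mod_cast h7)
  · rcases lt_or_ge p 5 with hp5 | hp5
    · have hp2 : p = 2 ∨ p = 3 := by
        have := hp.out.two_le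
        interval_cases p
        · exact Or.inl rfl
        · exact Or.inr rfl
        · exact absurd hp.out (by norm_num)
      rcases hp2 with rfl | rfl
      · exact ⟨1, one_ne_zero, (hql 2 _ _).1 (val_g_inf (ql 2) h2' a b (hne b)),
          fun h => by omega, fun _ => rfl⟩
      · by_cases htW : t ∈ (ql 3).W
        · obtain ⟨c, hc⟩ := Plc.val_of_mem htW
          have hc1 := three_ne (ql 3) h1 h2 h3 h4 hc ha
          have hc2 := three_ne (ql 3) h1 h2 h3 h4 hc hb
          exact ⟨(c - a) / (c - b), div_ne_zero hc1 hc2,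
            (hql 3 _ _).1 (val_g (ql 3) hc a b hc2),
            fun h => by omega, fun h => by omega⟩
        · exact ⟨1, one_ne_zero, (hql 3 _ _).1 (val_g_inf (ql 3) htW a b (hne b)),
            fun h => by omega, fun h => by omega⟩
    · have h6 := hGP L k hk hC (ql 2) t D ht h1 h2 h3 h4 (intO (ql p))
        (intO_finite (ql p)) (intO_six (ql p) hp5) a ha b hb
      obtain ⟨c, hc, hc1⟩ := intO_isU (ql p) h6
      refine ⟨c, ?_, (hql p _ _).1 hc, fun _ => hc1, fun h => by omega⟩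
      intro h
      rw [h, norm_zero] at hc1
      exact zero_ne_one hc1

section

variable {F M N B : Type} [Field F] [Field M] [Field N] [Field B] [Algebra ℚ F] [Algebra F M]
  [Algebra F N] [Algebra ℚ M] [Algebra ℚ N]
  [Algebra ℚ B] [IsScalarTower ℚ F M] [IsScalarTower ℚ F N] [IsAlgClosure ℚ B]
  [Algebra.IsAlgebraic F M]

/-- the values at all the local points, for a section which lifts -/
theorem all_val2 (hGP : S_GP2) (hUT : S_UT) (s : GalSection ℚ F M B)
    (hR : RootN (s.j : B →+* M)) (s' : GalSection ℚ F N B) (φ' : M →ₐ[F] N)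
    (hcomp : ∀ g z, φ' (s.s g z) = s'.s g (φ' z))
    (P : ∀ v : HeightOneSpectrum (𝓞 ℚ), Plc ℚ N (AlgebraicClosure (v.adicCompletion ℚ)))
    (hP : ∀ v, s'.GivenBy (v.adicCompletion ℚ) (P v)) {x : F} (hx : Transcendental ℚ x) {K : Type}
    (E : K → ℚ) (i : K) (hAt : ∀ l l', l ≠ i → l' ≠ i → ∃ γ : M, (∀ g, s.s g γ = γ) ∧
      γ ^ 2 = algebraMap F M ((x - algebraMap ℚ F (E l)) * (x - algebraMap ℚ F (E l')) *
        algebraMap ℚ F ((E i - E l) * (E i - E l'))))
    (l : Fin 4 → K) (hl : ∀ j, l j ≠ i) (hEl : ∀ j, E (l j) ≠ E i) (z δ : ℚ) (hδ : δ ≠ 0)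
    (hAP : ∀ j : Fin 4, (E (l j) - E i)⁻¹ = z + (j : ℕ) * δ)
    (hKu : ∃ j j' : Fin 4, j ≠ j' ∧ ∀ n : ℕ, 0 < n → ∃ (c : ℚ) (w : N), (∀ g, s'.s g w = w) ∧
      algebraMap F N ((x - algebraMap ℚ F (E (l j))) / (x - algebraMap ℚ F (E (l j'))) *
        algebraMap ℚ F ((E (l j') - E i) / (E (l j) - E i))) = algebraMap ℚ N c * w ^ n) :
    ∀ v, (P v).val (algebraMap F N (x - algebraMap ℚ F (E i))) 0 := by
  haveI : Algebra.IsAlgebraic ℚ B := IsAlgClosure.isAlgebraic
  haveI : CharZero B := charZero_of_injective_algebraMap (algebraMap ℚ B).injective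
  haveI : Normal ℚ B := IsAlgClosure.normal ℚ B
  haveI hchF : CharZero F := charZero_of_injective_algebraMap (algebraMap ℚ F).injective
  haveI hchM : CharZero M := charZero_of_injective_algebraMap (algebraMap ℚ M).injective
  haveI hchL : CharZero (fixL s) := charZero_of_injective_algebraMap
    (algebraMap ℚ (fixL s)).injective
  haveI hcv : ∀ v : HeightOneSpectrum (𝓞 ℚ), CharZero (v.adicCompletion ℚ) := fun v =>
    charZero_of_injective_algebraMap (algebraMap ℚ (v.adicCompletion ℚ)).injective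
  let sA : (B ≃ₐ[ℚ] B) →* RingAut M := (toRingAutHom F M).comp s.s
  let φ : fixL s →+* M := algebraMap (fixL s) M
  have hSD : SD (s.j : B →+* M) sA := ⟨fun σ c => s.sec σ c, fun w => gal_cont s.s s.cont w⟩
  have hFx : Fxd sA φ := ⟨fun z σ => z.2 σ, fun z hz => ⟨⟨z, hz⟩, rfl⟩⟩
  have hC : ClsE (kk (s.j : B →+* M) φ) := clsE_rootN hR hSD hFx
  have hk : ∀ y : fixL s, y ^ 2 ∈ kk (s.j : B →+* M) φ → y ∈ kk (s.j : B →+* M) φ :=
    fun y => kk_sq
  have hkQ : ∀ q : ℚ, algebraMap ℚ (fixL s) q ∈ kk (s.j : B →+* M) φ := by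
    intro q
    refine mem_kk.2 ⟨algebraMap ℚ B q, ?_⟩
    change s.j (algebraMap ℚ B q) = algebraMap (fixL s) M (algebraMap ℚ (fixL s) q)
    rw [s.j.commutes]
    rfl
  -- the elements
  let X : fixL s := ⟨algebraMap F M x, F_fixL s x⟩
  have hXk : X ∉ kk (s.j : B →+* M) φ := by
    intro h
    obtain ⟨c, hc⟩ := mem_kk.1 h
    have h1 : s.j c = algebraMap F M x := hc
    have h2 : IsAlgebraic ℚ (algebraMap F M x) := by
      rw [← h1]
      exact (Algebra.IsAlgebraic.isAlgebraic (R := ℚ) c).algHom s.j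
    exact (transcendental_algebraMap_iff (R := ℚ) (algebraMap F M).injective (a := x)).2 hx h2
  have hXe : ∀ q : ℚ, X - algebraMap ℚ (fixL s) q ≠ 0 := by
    intro q h
    apply hXk
    rw [sub_eq_zero.1 h]
    exact hkQ q
  have hinj : Function.Injective (algebraMap ℚ (fixL s)) := (algebraMap ℚ (fixL s)).injective
  have hδL : algebraMap ℚ (fixL s) δ ≠ 0 := by
    rw [Ne, _root_.map_eq_zero]
    exact hδ
  have hγ : ∀ l l', l ≠ i → l' ≠ i → ∃ γ : fixL s,
      γ ^ 2 = (X - algebraMap ℚ (fixL s) (E l)) * (X - algebraMap ℚ (fixL s) (E l')) *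
        ((algebraMap ℚ (fixL s) (E i) - algebraMap ℚ (fixL s) (E l)) *
          (algebraMap ℚ (fixL s) (E i) - algebraMap ℚ (fixL s) (E l'))) := by
    intro l l' h1 h2
    obtain ⟨γ, h3, h4⟩ := hAt l l' h1 h2
    refine ⟨⟨γ, h3⟩, Subtype.ext ?_⟩
    change γ ^ 2 = (algebraMap F M x - algebraMap ℚ M (E l)) *
      (algebraMap F M x - algebraMap ℚ M (E l')) * ((algebraMap ℚ M (E i) - algebraMap ℚ M (E l)) *
          (algebraMap ℚ M (E i) - algebraMap ℚ M (E l')))
    rw [h4]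
    simp only [map_mul, map_sub, ← IsScalarTower.algebraMap_apply ℚ F M]
  set u : fixL s := (X - algebraMap ℚ (fixL s) (E i))⁻¹ with hu
  set T : fixL s := 2 * (u - algebraMap ℚ (fixL s) z) / algebraMap ℚ (fixL s) δ - 3 with hT
  have hdj : ∀ j, algebraMap ℚ (fixL s) (E (l j)) - algebraMap ℚ (fixL s) (E i) ≠ 0 := by
    intro j
    rw [← map_sub, Ne, _root_.map_eq_zero, sub_eq_zero]
    exact hEl j
  have hT' : ∀ j : Fin 4, T + 3 - 2 * ((j : ℕ) : fixL s) =
      -(2 / algebraMap ℚ (fixL s) δ) * ((X - algebraMap ℚ (fixL s) (E (l j))) /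
        ((X - algebraMap ℚ (fixL s) (E i)) *
          (algebraMap ℚ (fixL s) (E (l j)) - algebraMap ℚ (fixL s) (E i)))) := by
    intro j
    have h1 := hdj j
    have h2 := congrArg (algebraMap ℚ (fixL s)) (hAP j)
    rw [map_inv₀, map_sub, map_add, map_mul, map_natCast] at h2
    have h3 : ((j : ℕ) : fixL s) * algebraMap ℚ (fixL s) δ =
        (algebraMap ℚ (fixL s) (E (l j)) - algebraMap ℚ (fixL s) (E i))⁻¹ -
          algebraMap ℚ (fixL s) z := by rw [h2]; ring
    have h4 := hXe (E i)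
    have h5 : 2 * ((j : ℕ) : fixL s) = 2 * ((algebraMap ℚ (fixL s) (E (l j)) -
        algebraMap ℚ (fixL s) (E i))⁻¹ - algebraMap ℚ (fixL s) z) /
          algebraMap ℚ (fixL s) δ := by
      rw [← h3]
      field_simp
    rw [h5, hT, hu]
    field_simp
    ring
  have hq : ∀ j : Fin 4, ∃ q, T + 3 - 2 * ((j : ℕ) : fixL s) = (T + 3) * q ^ 2 := by
    intro j
    obtain ⟨γ, hγ'⟩ := hγ (l j) (l 0) (hl j) (hl 0)
    have h0 := hT' 0
    have hz : ((((0 : Fin 4) : ℕ)) : fixL s) = 0 := by simp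
    rw [hz, mul_zero, sub_zero] at h0
    have d1 := hdj j
    have d2 := hdj 0
    have d3 := hXe (E i)
    have d4 := hXe (E (l 0))
    refine ⟨γ / ((X - algebraMap ℚ (fixL s) (E (l 0))) *
      (algebraMap ℚ (fixL s) (E (l j)) - algebraMap ℚ (fixL s) (E i))), ?_⟩
    rw [hT' j, h0, div_pow, hγ']
    field_simp
    ring
  have hTk : T ∉ kk (s.j : B →+* M) φ := by
    intro h
    have h2m : (2 : fixL s) ∈ kk (s.j : B →+* M) φ := by
      have := natCast_mem (kk (s.j : B →+* M) φ) 2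
      rwa [Nat.cast_ofNat] at this
    have h3m : (3 : fixL s) ∈ kk (s.j : B →+* M) φ := by
      have := natCast_mem (kk (s.j : B →+* M) φ) 3
      rwa [Nat.cast_ofNat] at this
    have h1 : u = (T + 3) * algebraMap ℚ (fixL s) δ / 2 + algebraMap ℚ (fixL s) z := by
      rw [hT]
      field_simp
      ring
    have h2 : u ∈ kk (s.j : B →+* M) φ := by
      rw [h1]
      exact add_mem (div_mem (mul_mem (add_mem h h3m) (hkQ δ)) h2m) (hkQ z)
    apply hXk
    have h3 : X = u⁻¹ + algebraMap ℚ (fixL s) (E i) := by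
      rw [hu, inv_inv]
      ring
    rw [h3]
    exact add_mem (inv_mem h2) (hkQ _)
  -- the larger fixed field
  haveI hchN : CharZero N := charZero_of_injective_algebraMap (algebraMap F N).injective
  haveI hchL' : CharZero (fixL s') := charZero_of_injective_algebraMap
    (algebraMap ℚ (fixL s')).injective
  let Φ : fixL s →ₐ[ℚ] fixL s' :=
    { toFun := fun y => ⟨φ' (y : M), fun g => by rw [← hcomp, y.2 g]⟩
      map_one' := Subtype.ext (map_one φ')
      map_mul' := fun a b => Subtype.ext (map_mul φ' _ _)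
      map_zero' := Subtype.ext (map_zero φ')
      map_add' := fun a b => Subtype.ext (map_add φ' _ _)
      commutes' := fun r => Subtype.ext (by
        change φ' (algebraMap ℚ M r) = algebraMap ℚ N r
        rw [IsScalarTower.algebraMap_apply ℚ F M, IsScalarTower.algebraMap_apply ℚ F N]
        exact φ'.commutes _) }
  have hΦ : ∀ y : fixL s, ((Φ y : fixL s') : N) = φ' (y : M) := fun y => rfl
  -- Kummer theory
  have hT4 : ∀ j : Fin 4, (2 * ((j : ℕ) : ℤ) - 3) ∈ T4 := by decide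
  have hTj : ∀ j : Fin 4, T - ((2 * ((j : ℕ) : ℤ) - 3 : ℤ) : fixL s) =
      T + 3 - 2 * ((j : ℕ) : fixL s) := by
    intro j
    push_cast
    ring
  obtain ⟨j, j', hjj, hKu⟩ := hKu
  have hKum : ∃ a ∈ T4, ∃ b ∈ T4, a ≠ b ∧ ∀ n : ℕ, 0 < n → ∃ (c : ℚ) (w : fixL s'),
      Φ ((T - (a : ℤ)) / (T - (b : ℤ))) = algebraMap ℚ (fixL s') c * w ^ n := by
    refine ⟨_, hT4 j, _, hT4 j', ?_, fun n hn => ?_⟩
    · intro h
      apply hjj
      apply Fin.ext
      omega
    · obtain ⟨c, w, hw, h1⟩ := hKu n hn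
      refine ⟨c, ⟨w, hw⟩, ?_⟩
      rw [hTj, hTj, hT' j, hT' j']
      have e1 := hXe (E (l j))
      have e2 := hXe (E (l j'))
      have e3 := hXe (E i)
      have e4 := hdj j
      have e5 := hdj j'
      have h2 : -(2 / algebraMap ℚ (fixL s) δ) * ((X - algebraMap ℚ (fixL s) (E (l j))) /
          ((X - algebraMap ℚ (fixL s) (E i)) *
            (algebraMap ℚ (fixL s) (E (l j)) - algebraMap ℚ (fixL s) (E i)))) /
          (-(2 / algebraMap ℚ (fixL s) δ) * ((X - algebraMap ℚ (fixL s) (E (l j'))) /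
          ((X - algebraMap ℚ (fixL s) (E i)) *
            (algebraMap ℚ (fixL s) (E (l j')) - algebraMap ℚ (fixL s) (E i))))) =
          (X - algebraMap ℚ (fixL s) (E (l j))) / (X - algebraMap ℚ (fixL s) (E (l j'))) *
            ((algebraMap ℚ (fixL s) (E (l j')) - algebraMap ℚ (fixL s) (E i)) /
              (algebraMap ℚ (fixL s) (E (l j)) - algebraMap ℚ (fixL s) (E i))) := by
        field_simp
      rw [h2]
      apply Subtype.ext
      change φ' ((algebraMap F M x - algebraMap ℚ M (E (l j))) /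
        (algebraMap F M x - algebraMap ℚ M (E (l j'))) *
          ((algebraMap ℚ M (E (l j')) - algebraMap ℚ M (E i)) /
            (algebraMap ℚ M (E (l j)) - algebraMap ℚ M (E i)))) = algebraMap ℚ N c * w ^ n
      rw [← h1, ← φ'.commutes]
      congr 1
      simp only [map_mul, map_sub, map_div₀, ← IsScalarTower.algebraMap_apply ℚ F M]
  -- the places
  have hTW : ∀ v, Φ T ∉ (plcL (hP v)).W := by
    intro v
    obtain ⟨q, rfl⟩ := (Rat.HeightOneSpectrum.primesEquiv (R := 𝓞 ℚ)).symm.surjective v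
    have key := bl4 hGP hUT (fixL s) (fixL s') Φ (kk (s.j : B →+* M) φ) hk hC
      (fun p hp => mapPlc (plcL (hP ((Rat.HeightOneSpectrum.primesEquiv (R := 𝓞 ℚ)).symm
        ⟨p, hp.out⟩)))
        ((Padic.adicCompletionEquiv (𝓞 ℚ) ⟨p, hp.out⟩).symm :
          (((Rat.HeightOneSpectrum.primesEquiv (R := 𝓞 ℚ)).symm ⟨p, hp.out⟩).adicCompletion ℚ)
            →ₐ[ℚ] ℚ_[p])) T (T + 3) hTk hKum ?_ ?_ ?_ ⟨1, by ring⟩
    · haveI : Fact (Nat.Prime (q : ℕ)) := ⟨q.2⟩
      exact key (q : ℕ)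
    · obtain ⟨r, hq2⟩ := hq 2
      refine ⟨r, ?_⟩
      rw [← hq2]
      have : (((2 : Fin 4) : ℕ) : fixL s) = 2 := by norm_num
      rw [this]
      ring
    · obtain ⟨r, hq2⟩ := hq 1
      refine ⟨r, ?_⟩
      rw [← hq2]
      have : (((1 : Fin 4) : ℕ) : fixL s) = 1 := by norm_num
      rw [this]
      ring
    · obtain ⟨r, hq2⟩ := hq 3
      refine ⟨r, ?_⟩
      rw [← hq2]
      have : (((3 : Fin 4) : ℕ) : fixL s) = 3 := by norm_num
      rw [this]
      ring
  intro v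
  have huW : Φ u ∉ (plcL (hP v)).W := by
    intro h
    apply hTW v
    have hW : ∀ q : ℚ, Φ (algebraMap ℚ (fixL s) q) ∈ (plcL (hP v)).W := fun q => by
      rw [Φ.commutes]
      exact (Plc.val_alg (pl := plcL (hP v)) q).mem
    have h2m : Φ (2 : fixL s) ∈ (plcL (hP v)).W := by
      have := hW 2
      rwa [map_ofNat] at this
    have h3m : Φ (3 : fixL s) ∈ (plcL (hP v)).W := by
      have := hW 3
      rwa [map_ofNat] at this
    have h1 : T = 2 * (u - algebraMap ℚ (fixL s) z) * algebraMap ℚ (fixL s) δ⁻¹ - 3 := by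
      rw [hT, map_inv₀]
      ring
    rw [h1, map_sub Φ, map_mul Φ, map_mul Φ, map_sub Φ]
    exact sub_mem (mul_mem (mul_mem h2m (sub_mem h (hW z))) (hW _)) h3m
  have hfin := plcL_val (Plc.val_inv_of_notMem huW)
  rw [map_zero] at hfin
  have h6 : (((Φ u)⁻¹ : fixL s') : N) = algebraMap F N (x - algebraMap ℚ F (E i)) := by
    rw [← map_inv₀, hΦ, hu, inv_inv, ← φ'.commutes]
    congr 1
    rw [map_sub, ← IsScalarTower.algebraMap_apply ℚ F M]
    rfl
  rw [h6] at hfin
  exact hfin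

end

end Pool.Agent.Zk47.BS
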