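import Mathlib
import Pool.Agent.Zk47.BS.Sel
import Pool.Agent.Zk94.BS.Ku
import Pool.Agent.Zk94.BS.Ut
import Pool.Agent.Zk90.BS.Gp2
import Pool.Agent.Zk95.TD.Ex
import Pool.Agent.W262.G3.Fin2
import Pool.Agent.W623.SecG.Loc2
import Pool.Agent.TH213.SEL.Transp

/-!
# Selmer sections of almost all quadratic twists
-/

set_option autoImplicit false
set_option linter.all false

open IsDedekindDomain NumberField Pool.Agent.W620.SC Pool.Agent.TH954

namespace Pool.Agent.Zk47.BS

open Pool.Agent.Y158.GR Pool.Agent.Y157.PS Pool.Agent.Zk95.TD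

/-- The condition on `d`: let `F` be a field over `ℚ` with elements `x`, `y` such that `x` is
transcendental over `ℚ` and `d y² = ∏ (x - e_i)`.  Let `U` be a set of valuation rings of `F` over
`ℚ` which contains no one at which one of `x - e_0`, `x - e_1`, `x - e_2` has a zero, and `M` the maximal
extension `F_U` of `F` in an algebraic closure `Ω` which is unramified over the elements of `U`. Then
for every continuous section `s` of `Gal(M/F) → G_ℚ` which is given by a place over `ℚ_v` for all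
finite places `v` there is an `i` such that the value of `x` is `e_i` at all these places, for all
`v`. -/
def SelmerAt (d : ℤ) : Prop :=
  ∀ (F Ω M B : Type) [Field F] [Field Ω] [Field M] [Field B] [Algebra ℚ F] [Algebra F Ω]
    [Algebra ℚ Ω] [Algebra F M] [Algebra ℚ M] [Algebra ℚ B]
    [IsScalarTower ℚ F Ω] [IsScalarTower ℚ F M] [IsAlgClosure F Ω] [IsAlgClosure ℚ B]
    (x y : F) (U : Set (ValuationSubring F)) (ι : M →ₐ[F] Ω),
    (∀ O ∈ U, ∀ c : ℚ, algebraMap ℚ F c ∈ O) →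
    (∀ O ∈ U, x ∈ O → ∀ l : Fin 6, l ≤ 2 → (x - (ex l : F))⁻¹ ∈ O) →
    ι.fieldRange = unramified F Ω U → Transcendental ℚ x →
    (d : F) * y ^ 2 = ∏ i, (x - (ex i : F)) →
    ∀ s : GalSection ℚ F M B,
      (∀ v : HeightOneSpectrum (𝓞 ℚ), s.GeometricOver (v.adicCompletion ℚ)
        (AlgebraicClosure (v.adicCompletion ℚ))) →
      ∃ i, ∀ (v : HeightOneSpectrum (𝓞 ℚ))
        (p : Plc ℚ M (AlgebraicClosure (v.adicCompletion ℚ))), s.GivenBy (v.adicCompletion ℚ) p →
        p.val (algebraMap F M x) (algebraMap ℚ (AlgebraicClosure (v.adicCompletion ℚ)) (ex i))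

/-- the progressions, with two of the first three branch points -/
lemma progressions_ex2 (i : Fin 6) : ∃ (l : Fin 4 → Fin 6) (z δ : ℚ), δ ≠ 0 ∧ (∀ j, l j ≠ i) ∧
    (∀ j : Fin 4, ((ex (l j) : ℚ) - ex i)⁻¹ = z + (j : ℕ) * δ) ∧
    ∃ j j' : Fin 4, j ≠ j' ∧ l j ≤ 2 ∧ l j' ≤ 2 := by
  fin_cases i
  · refine ⟨![5, 4, 2, 1], -1 / 30, 1 / 15, by norm_num, by decide, fun j => ?_, 2, 3, by decide,
      by decide, by decide⟩
    fin_cases j <;> simp [ex] <;> norm_num
  · refine ⟨![0, 5, 3, 2], -1 / 6, 5 / 36, by norm_num, by decide, fun j => ?_, 0, 3, by decide,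
      by decide, by decide⟩
    fin_cases j <;> simp [ex] <;> norm_num
  · refine ⟨![1, 0, 4, 3], -1 / 4, 3 / 20, by norm_num, by decide, fun j => ?_, 0, 1, by decide,
      by decide, by decide⟩
    fin_cases j <;> simp [ex] <;> norm_num
  · refine ⟨![2, 1, 5, 4], -1 / 5, 4 / 45, by norm_num, by decide, fun j => ?_, 0, 1, by decide,
      by decide, by decide⟩
    fin_cases j <;> simp [ex] <;> norm_num
  · refine ⟨![3, 2, 0, 5], -1 / 15, 1 / 60, by norm_num, by decide, fun j => ?_, 1, 2, by decide,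
      by decide, by decide⟩
    fin_cases j <;> simp [ex] <;> norm_num
  · refine ⟨![4, 3, 1, 0], 1 / 60, 1 / 180, by norm_num, by decide, fun j => ?_, 2, 3, by decide,
      by decide, by decide⟩
    fin_cases j <;> simp [ex] <;> norm_num

/-- quotients of functions without zeros in `U` -/
theorem isU_quot {F : Type} [Field F] [Algebra ℚ F] {O : ValuationSubring F}
    (hO : ∀ c : ℚ, algebraMap ℚ F c ∈ O) {x : F} {a b c : ℚ} (hc : c ≠ 0)
    (hxa : x - algebraMap ℚ F a ≠ 0) (hxb : x - algebraMap ℚ F b ≠ 0)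
    (ha : x ∈ O → (x - algebraMap ℚ F a)⁻¹ ∈ O) (hb : x ∈ O → (x - algebraMap ℚ F b)⁻¹ ∈ O) :
    IsU O ((x - algebraMap ℚ F a) / (x - algebraMap ℚ F b) * algebraMap ℚ F c) := by
  have h1 : IsU O (algebraMap ℚ F c) := by
    refine ⟨(_root_.map_ne_zero _).2 hc, hO c, ?_⟩
    rw [← map_inv₀]
    exact hO _
  refine IsU.mul ?_ h1
  by_cases hx : x ∈ O
  · exact IsU.div ⟨hxa, sub_mem hx (hO a), ha hx⟩ ⟨hxb, sub_mem hx (hO b), hb hx⟩
  · have hx0 : x ≠ 0 := by
      rintro rfl
      exact hx (zero_mem _)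
    have hxi : x⁻¹ ∈ O.nonunits := by
      rw [nonunits_iff, inv_inv]
      exact ⟨(O.mem_or_inv_mem x).resolve_left hx, Or.inr hx⟩
    have key : ∀ a : ℚ, IsU O (1 - algebraMap ℚ F a * x⁻¹) := by
      intro a
      have h2 := non_mul (hO a) hxi
      refine isU_of_not_nonunit (sub_mem (one_mem _) (non_mem h2)) fun h3 => ?_
      have h4 := non_add h3 h2
      rw [sub_add_cancel] at h4
      exact isU_one.not_nonunit h4
    have h2 : (x - algebraMap ℚ F a) / (x - algebraMap ℚ F b) =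
        (1 - algebraMap ℚ F a * x⁻¹) / (1 - algebraMap ℚ F b * x⁻¹) := by
      have h3 := (key b).1
      rw [div_eq_div_iff hxb h3]
      field_simp
    rw [h2]
    exact (key a).div (key b)

theorem selmer_of {d : ℤ} (hbad : ¬ Pool.Agent.W623.SecG.Bad2.{0, 0} ex d) : SelmerAt d := by
  classical
  intro F Ω M B _ _ _ _ _ _ _ _ _ _ _ _ _ _ x y U ι hU hU2 hι hx hxy s hgeo
  have hcl : IsAlgClosed Ω := IsAlgClosure.isAlgClosed F
  have halg : Algebra.IsAlgebraic F Ω := IsAlgClosure.isAlgebraic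
  have : Algebra.IsAlgebraic F M := Algebra.IsAlgebraic.of_injective ι ι.injective
  have hBalg : Algebra.IsAlgebraic ℚ B := IsAlgClosure.isAlgebraic
  have hcF : CharZero F := charZero_of_injective_algebraMap (algebraMap ℚ F).injective
  set G : GSection ℚ F Ω U := Pool.Agent.TH213.SEL.ofGal ι hι s with hG
  obtain ⟨i, hi⟩ : ∃ i, Pool.Agent.W623.SecG.At G x ex i := by
    by_contra hno
    push Not at hno
    exact hbad ⟨F, Ω, inferInstance, inferInstance, inferInstance, inferInstance, inferInstance,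
      inferInstance, hcl, halg, U, G, x, y, hU, hx, hxy, hno⟩
  have he : Function.Injective ex := by decide
  have hE : Function.Injective (fun k => (ex k : ℚ)) := by
    intro a b h
    have h' : (ex a : ℚ) = (ex b : ℚ) := h
    exact he (by exact_mod_cast h')
  obtain ⟨l, z, δ, hδ, hl, hAP, j, j', hjj, hj, hj'⟩ := progressions_ex2 i
  have hxe : ∀ q : ℚ, x - algebraMap ℚ F q ≠ 0 := by
    intro q h
    apply hx
    rw [sub_eq_zero.1 h]
    exact isAlgebraic_algebraMap q
  have hKu : ∃ j j' : Fin 4, j ≠ j' ∧ ∀ n : ℕ, 0 < n → ∃ (c : ℚ) (w : M), (∀ g, s.s g w = w) ∧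
      algebraMap F M ((x - algebraMap ℚ F ((fun k => (ex k : ℚ)) (l j))) /
        (x - algebraMap ℚ F ((fun k => (ex k : ℚ)) (l j'))) *
        algebraMap ℚ F (((fun k => (ex k : ℚ)) (l j') - (fun k => (ex k : ℚ)) i) /
          ((fun k => (ex k : ℚ)) (l j) - (fun k => (ex k : ℚ)) i))) =
        algebraMap ℚ M c * w ^ n := by
    refine ⟨j, j', hjj, fun n hn => ?_⟩
    have hd : ∀ j, (ex (l j) : ℚ) - ex i ≠ 0 := by
      intro j h
      exact hl j (hE (sub_eq_zero.1 h))
    have hc : ((ex (l j') : ℚ) - ex i) / ((ex (l j) : ℚ) - ex i) ≠ 0 :=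
      div_ne_zero (hd j') (hd j)
    refine Pool.Agent.Zk94.BS.ku2 F Ω M B U ι hU hι s _ ?_ (fun O hO => ?_) n hn
    · exact mul_ne_zero (div_ne_zero (hxe _) (hxe _)) ((_root_.map_ne_zero _).2 hc)
    · refine isU_quot (hU O hO) hc (hxe _) (hxe _) (fun h => ?_) (fun h => ?_)
      · have := hU2 O hO h (l j) hj
        simp only [map_intCast]
        exact this
      · have := hU2 O hO h (l j') hj'
        simp only [map_intCast]
        exact this
  have hAt : ∀ m m', m ≠ i → m' ≠ i → ∃ γ : M, (∀ g, s.s g γ = γ) ∧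
      γ ^ 2 = algebraMap F M ((x - algebraMap ℚ F ((fun k => (ex k : ℚ)) m)) *
        (x - algebraMap ℚ F ((fun k => (ex k : ℚ)) m')) *
        algebraMap ℚ F (((fun k => (ex k : ℚ)) i - (fun k => (ex k : ℚ)) m) *
          ((fun k => (ex k : ℚ)) i - (fun k => (ex k : ℚ)) m'))) := by
    intro m m' h1 h2
    obtain ⟨γ, h3, h4⟩ := hi m m' h1 h2
    refine ⟨Pool.Agent.TH213.SEL.phi ι hι γ, Pool.Agent.TH213.SEL.fixed_of_ofGal ι hι s h3, ?_⟩
    apply ι.injective
    change ι (Pool.Agent.TH213.SEL.phi ι hι γ ^ 2) = ι (algebraMap F M _)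
    rw [map_pow, Pool.Agent.TH213.SEL.e_phi, h4, ι.commutes]
    congr 1
    simp only [map_mul, map_sub, map_intCast]
    push_cast
    ring
  refine ⟨i, fun v p hp => ?_⟩
  choose P₀ hP₀ using hgeo
  have hP : ∀ w, s.GivenBy (w.adicCompletion ℚ) (Function.update P₀ v p w) := by
    intro w
    by_cases h : w = v
    · subst h
      rw [Function.update_self]
      exact hp
    · rw [Function.update_of_ne h]
      exact hP₀ w
  have h1 := all_val Pool.Agent.Zk90.BS.gp2 Pool.Agent.Zk94.BS.ut s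
    (Pool.Agent.Zk12.rootN_unr U hU ι hι s.j) (Function.update P₀ v p) hP hx
    (fun k => (ex k : ℚ)) i hAt l hl (fun j h => hl j (hE h)) z δ hδ hAP hKu v
  rw [Function.update_self] at h1
  have h2 := h1.add (Plc.val_alg (pl := p) (ex i : ℚ))
  have h3 : algebraMap F M (x - algebraMap ℚ F (ex i)) + algebraMap ℚ M (ex i) =
      algebraMap F M x := by
    rw [map_sub, ← IsScalarTower.algebraMap_apply]
    ring
  rwa [h3, zero_add] at h2

/-- the exceptional `d` are rare -/
theorem finU : ∃ C : ℝ, ∀ X : ℕ, 2 ≤ X →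
    ({d : ℤ | d.natAbs ≤ X ∧ Squarefree d ∧ ¬ SelmerAt d}.ncard : ℝ) ≤
      C * X * (Real.log X) ^ (-(1 / 5) : ℝ) := by
  classical
  obtain ⟨C, hC⟩ := Pool.Agent.W262.G3.fin2.{0, 0} Pool.Agent.W623.SecG.secloc2
    Pool.Agent.W623.SecE.secglob (Fin 6) ex (by decide) (by decide) (by decide) crossRatio_ex
  refine ⟨C, fun X hX => le_trans ?_ (hC X hX)⟩
  have hfin : {d : ℤ | d.natAbs ≤ X ∧ Squarefree d ∧
      Pool.Agent.W623.SecG.Bad2.{0, 0} ex d}.Finite := by
    refine (Finset.finite_toSet (Finset.Icc (-(X : ℤ)) X)).subset ?_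
    rintro d ⟨hd1, -⟩
    rw [Finset.mem_coe, Finset.mem_Icc]
    omega
  have hsub : {d : ℤ | d.natAbs ≤ X ∧ Squarefree d ∧ ¬ SelmerAt d} ⊆
      {d : ℤ | d.natAbs ≤ X ∧ Squarefree d ∧ Pool.Agent.W623.SecG.Bad2.{0, 0} ex d} := by
    rintro d ⟨hd1, hd2, hd3⟩
    refine ⟨hd1, hd2, ?_⟩
    by_contra hbad
    exact hd3 (selmer_of hbad)
  exact_mod_cast Set.ncard_le_ncard hsub hfin

end Pool.Agent.Zk47.BS
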