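import Mathlib
import Pool.Agent.Zk47.BS.SelEx

/-!
# Selmer sections of almost all quadratic twists: general branch points
-/

set_option autoImplicit false
set_option linter.all false

open IsDedekindDomain NumberField Pool.Agent.W620.SC Pool.Agent.TH954

namespace Pool.Agent.Zk47.BS

open Pool.Agent.Y158.GR Pool.Agent.Y157.PS Pool.Agent.Zk95.TD

/-- the condition on `d` for the branch points `e` and a set `S` of indices: `U` contains no valuation
ring at which `x - e_l`, `l ∈ S`, has a zero -/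
def SelmerS {K : Type} [Fintype K] (e : K → ℤ) (S : Set K) (d : ℤ) : Prop :=
  ∀ (F Ω M B : Type) [Field F] [Field Ω] [Field M] [Field B] [Algebra ℚ F] [Algebra F Ω]
    [Algebra ℚ Ω] [Algebra F M] [Algebra ℚ M] [Algebra ℚ B]
    [IsScalarTower ℚ F Ω] [IsScalarTower ℚ F M] [IsAlgClosure F Ω] [IsAlgClosure ℚ B]
    (x y : F) (U : Set (ValuationSubring F)) (ι : M →ₐ[F] Ω),
    (∀ O ∈ U, ∀ c : ℚ, algebraMap ℚ F c ∈ O) →
    (∀ O ∈ U, x ∈ O → ∀ l ∈ S, (x - (e l : F))⁻¹ ∈ O) →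
    ι.fieldRange = unramified F Ω U → Transcendental ℚ x →
    (d : F) * y ^ 2 = ∏ i, (x - (e i : F)) →
    ∀ s : GalSection ℚ F M B,
      (∀ v : HeightOneSpectrum (𝓞 ℚ), s.GeometricOver (v.adicCompletion ℚ)
        (AlgebraicClosure (v.adicCompletion ℚ))) →
      ∃ i, ∀ (v : HeightOneSpectrum (𝓞 ℚ))
        (p : Plc ℚ M (AlgebraicClosure (v.adicCompletion ℚ))), s.GivenBy (v.adicCompletion ℚ) p →
        p.val (algebraMap F M x) (algebraMap ℚ (AlgebraicClosure (v.adicCompletion ℚ)) (e i))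

/-- For every `i`, four of the numbers `1 / (e_l - e_i)`, `l ≠ i`, form an arithmetic progression, two
of them with `l ∈ S`. -/
def ProgressionsS {K : Type} (e : K → ℤ) (S : Set K) : Prop :=
  ∀ i, ∃ (l : Fin 4 → K) (z δ : ℚ), δ ≠ 0 ∧ (∀ j, l j ≠ i) ∧
    (∀ j : Fin 4, ((e (l j) : ℚ) - e i)⁻¹ = z + (j : ℕ) * δ) ∧
    ∃ j j' : Fin 4, j ≠ j' ∧ l j ∈ S ∧ l j' ∈ S

theorem progressionsS_univ {K : Type} {e : K → ℤ} (h : Progressions e) :
    ProgressionsS e Set.univ := by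
  intro i
  obtain ⟨l, z, δ, h1, h2, h3⟩ := h i
  exact ⟨l, z, δ, h1, h2, h3, 0, 1, by decide, Set.mem_univ _, Set.mem_univ _⟩

theorem progressionsS_ex : ProgressionsS ex {l | l ≤ 2} := by
  intro i
  obtain ⟨l, z, δ, h1, h2, h3, j, j', h4, h5, h6⟩ := progressions_ex2 i
  exact ⟨l, z, δ, h1, h2, h3, j, j', h4, h5, h6⟩

theorem selmerS_of {K : Type} [Fintype K] {e : K → ℤ} (he : Function.Injective e) {S : Set K}
    (hPr : ProgressionsS e S) {d : ℤ} (hbad : ¬ Pool.Agent.W623.SecG.Bad2.{0, 0} e d) :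
    SelmerS e S d := by
  classical
  intro F Ω M B _ _ _ _ _ _ _ _ _ _ _ _ _ _ x y U ι hU hU2 hι hx hxy s hgeo
  have hcl : IsAlgClosed Ω := IsAlgClosure.isAlgClosed F
  have halg : Algebra.IsAlgebraic F Ω := IsAlgClosure.isAlgebraic
  have : Algebra.IsAlgebraic F M := Algebra.IsAlgebraic.of_injective ι ι.injective
  have hBalg : Algebra.IsAlgebraic ℚ B := IsAlgClosure.isAlgebraic
  have hcF : CharZero F := charZero_of_injective_algebraMap (algebraMap ℚ F).injective
  set G : GSection ℚ F Ω U := Pool.Agent.TH213.SEL.ofGal ι hι s with hG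
  obtain ⟨i, hi⟩ : ∃ i, Pool.Agent.W623.SecG.At G x e i := by
    by_contra hno
    push Not at hno
    exact hbad ⟨F, Ω, inferInstance, inferInstance, inferInstance, inferInstance, inferInstance,
      inferInstance, hcl, halg, U, G, x, y, hU, hx, hxy, hno⟩
  have hE : Function.Injective (fun k => (e k : ℚ)) := by
    intro a b h
    have h' : (e a : ℚ) = (e b : ℚ) := h
    exact he (by exact_mod_cast h')
  obtain ⟨l, z, δ, hδ, hl, hAP, j, j', hjj, hj, hj'⟩ := hPr i
  have hxe : ∀ q : ℚ, x - algebraMap ℚ F q ≠ 0 := by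
    intro q h
    apply hx
    rw [sub_eq_zero.1 h]
    exact isAlgebraic_algebraMap q
  have hKu : ∃ j j' : Fin 4, j ≠ j' ∧ ∀ n : ℕ, 0 < n → ∃ (c : ℚ) (w : M), (∀ g, s.s g w = w) ∧
      algebraMap F M ((x - algebraMap ℚ F ((fun k => (e k : ℚ)) (l j))) /
        (x - algebraMap ℚ F ((fun k => (e k : ℚ)) (l j'))) *
        algebraMap ℚ F (((fun k => (e k : ℚ)) (l j') - (fun k => (e k : ℚ)) i) /
          ((fun k => (e k : ℚ)) (l j) - (fun k => (e k : ℚ)) i))) =
        algebraMap ℚ M c * w ^ n := by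
    refine ⟨j, j', hjj, fun n hn => ?_⟩
    have hd : ∀ j, (e (l j) : ℚ) - e i ≠ 0 := by
      intro j h
      exact hl j (hE (sub_eq_zero.1 h))
    have hc : ((e (l j') : ℚ) - e i) / ((e (l j) : ℚ) - e i) ≠ 0 :=
      div_ne_zero (hd j') (hd j)
    refine Pool.Agent.Zk94.BS.ku2 F Ω M B U ι hU hι s _ ?_ (fun O hO => ?_) n hn
    · exact mul_ne_zero (div_ne_zero (hxe _) (hxe _)) ((_root_.map_ne_zero _).2 hc)
    · refine isU_quot (hU O hO) hc (hxe _) (hxe _) (fun h => ?_) (fun h => ?_)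
      · have := hU2 O hO h (l j) hj
        simp only [map_intCast]
        exact this
      · have := hU2 O hO h (l j') hj'
        simp only [map_intCast]
        exact this
  have hAt : ∀ m m', m ≠ i → m' ≠ i → ∃ γ : M, (∀ g, s.s g γ = γ) ∧
      γ ^ 2 = algebraMap F M ((x - algebraMap ℚ F ((fun k => (e k : ℚ)) m)) *
        (x - algebraMap ℚ F ((fun k => (e k : ℚ)) m')) *
        algebraMap ℚ F (((fun k => (e k : ℚ)) i - (fun k => (e k : ℚ)) m) *
          ((fun k => (e k : ℚ)) i - (fun k => (e k : ℚ)) m'))) := by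
    intro m m' h1 h2
    obtain ⟨γ, h3, h4⟩ := hi m m' h1 h2
    refine ⟨Pool.Agent.TH213.SEL.phi ι hι γ, Pool.Agent.TH213.SEL.fixed_of_ofGal ι hι s h3, ?_⟩
    apply ι.injective
    change ι (Pool.Agent.TH213.SEL.phi ι hι γ ^ 2) = ι (algebraMap F M _)
    rw [map_pow, Pool.Agent.TH213.SEL.e_phi, h4, ι.commutes]
    congr 1
    simp only [map_mul, map_sub, map_intCast]
    push_cast
    ring
  refine ⟨i, fun v p hp => ?_⟩
  choose P₀ hP₀ using hgeo
  have hP : ∀ w, s.GivenBy (w.adicCompletion ℚ) (Function.update P₀ v p w) := by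
    intro w
    by_cases h : w = v
    · subst h
      rw [Function.update_self]
      exact hp
    · rw [Function.update_of_ne h]
      exact hP₀ w
  have h1 := all_val Pool.Agent.Zk90.BS.gp2 Pool.Agent.Zk94.BS.ut s
    (Pool.Agent.Zk12.rootN_unr U hU ι hι s.j) (Function.update P₀ v p) hP hx
    (fun k => (e k : ℚ)) i hAt l hl (fun j h => hl j (hE h)) z δ hδ hAP hKu v
  rw [Function.update_self] at h1
  have h2 := h1.add (Plc.val_alg (pl := p) (e i : ℚ))
  have h3 : algebraMap F M (x - algebraMap ℚ F (e i)) + algebraMap ℚ M (e i) =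
      algebraMap F M x := by
    rw [map_sub, ← IsScalarTower.algebraMap_apply]
    ring
  rwa [h3, zero_add] at h2

/-- the exceptional `d` are rare -/
theorem finS {K : Type} [Fintype K] (e : K → ℤ) (he : Function.Injective e)
    (hev : Even (Fintype.card K)) (hK : 6 ≤ Fintype.card K) (hCR : CrossRatio e) {S : Set K}
    (hPr : ProgressionsS e S) : ∃ C : ℝ, ∀ X : ℕ, 2 ≤ X →
    ({d : ℤ | d.natAbs ≤ X ∧ Squarefree d ∧ ¬ SelmerS e S d}.ncard : ℝ) ≤
      C * X * (Real.log X) ^ (-(1 / 5) : ℝ) := by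
  classical
  obtain ⟨C, hC⟩ := Pool.Agent.W262.G3.fin2.{0, 0} Pool.Agent.W623.SecG.secloc2
    Pool.Agent.W623.SecE.secglob K e he hev hK hCR
  refine ⟨C, fun X hX => le_trans ?_ (hC X hX)⟩
  have hfin : {d : ℤ | d.natAbs ≤ X ∧ Squarefree d ∧
      Pool.Agent.W623.SecG.Bad2.{0, 0} e d}.Finite := by
    refine (Finset.finite_toSet (Finset.Icc (-(X : ℤ)) X)).subset ?_
    rintro d ⟨hd1, -⟩
    rw [Finset.mem_coe, Finset.mem_Icc]
    omega
  have hsub : {d : ℤ | d.natAbs ≤ X ∧ Squarefree d ∧ ¬ SelmerS e S d} ⊆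
      {d : ℤ | d.natAbs ≤ X ∧ Squarefree d ∧ Pool.Agent.W623.SecG.Bad2.{0, 0} e d} := by
    rintro d ⟨hd1, hd2, hd3⟩
    refine ⟨hd1, hd2, ?_⟩
    by_contra hbad
    exact hd3 (selmerS_of he hPr hbad)
  exact_mod_cast Set.ncard_le_ncard hsub hfin

end Pool.Agent.Zk47.BS
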