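import Mathlib
import Pool.Agent.Zk47.BS.Lift
import Pool.Agent.Zk47.BS.SelGen
import Pool.Agent.Zk94.BS.Cab
import Pool.Agent.Zk49.Koe

/-!
# Liftable sections of almost all quadratic twists
-/

set_option autoImplicit false
set_option linter.all false

open IsDedekindDomain NumberField Pool.Agent.W620.SC Pool.Agent.TH954

namespace Pool.Agent.Zk47.BS

open Pool.Agent.Y158.GR Pool.Agent.Y157.PS Pool.Agent.Zk95.TD

/-- the condition on `d`: all sections of `Gal(M/F) → G_ℚ`, `M = F_U`, which lift to a locally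
geometric section of `Gal(N/F)`, where `N` contains all roots of the elements of `M`, come from a
rational place above a branch point -/
def Liftable {K : Type} [Fintype K] (e : K → ℤ) (d : ℤ) : Prop :=
  ∀ (F Ω M N B : Type) [Field F] [Field Ω] [Field M] [Field N] [Field B] [Algebra ℚ F]
    [Algebra F Ω] [Algebra ℚ Ω] [Algebra F M] [Algebra ℚ M] [Algebra F N] [Algebra ℚ N]
    [Algebra ℚ B] [IsScalarTower ℚ F Ω] [IsScalarTower ℚ F M] [IsScalarTower ℚ F N]
    [Algebra.IsAlgebraic F N] [IsAlgClosure F Ω] [IsAlgClosure ℚ B]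
    (x y : F) (U : Set (ValuationSubring F)) (ι : M →ₐ[F] Ω) (φ : M →ₐ[F] N),
    (∀ O ∈ U, ∀ c : ℚ, algebraMap ℚ F c ∈ O) → ι.fieldRange = unramified F Ω U →
    (∀ (z : M) (n : ℕ), 0 < n → ∃ w : N, w ^ n = φ z) →
    Transcendental ℚ x → Algebra.IsAlgebraic (IntermediateField.adjoin ℚ {x}) F →
    (d : F) * y ^ 2 = ∏ i, (x - (e i : F)) →
    ∀ (s : GalSection ℚ F M B) (s' : GalSection ℚ F N B),
      (∀ g z, φ (s.s g z) = s'.s g (φ z)) →
      (∀ v : HeightOneSpectrum (𝓞 ℚ), s'.GeometricOver (v.adicCompletion ℚ)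
        (AlgebraicClosure (v.adicCompletion ℚ))) →
      ∃ O : ValuationSubring F, s.ArisesFrom O ∧ ∃ i, (x - (e i : F))⁻¹ ∉ O

theorem liftable_of {K : Type} [Fintype K] {e : K → ℤ} (he : Function.Injective e)
    (hPr : Progressions e) {d : ℤ} (hbad : ¬ Pool.Agent.W623.SecG.Bad2.{0, 0} e d) :
    Liftable e d := by
  classical
  intro F Ω M N B _ _ _ _ _ _ _ _ _ _ _ _ _ _ _ _ _ _ _ x y U ι φ hU hι hroot hx hF hxy s s'
    hcomp hgeo
  have hcl : IsAlgClosed Ω := IsAlgClosure.isAlgClosed F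
  have halg : Algebra.IsAlgebraic F Ω := IsAlgClosure.isAlgebraic
  have : Algebra.IsAlgebraic F M := Algebra.IsAlgebraic.of_injective ι ι.injective
  have hBalg : Algebra.IsAlgebraic ℚ B := IsAlgClosure.isAlgebraic
  have hcF : CharZero F := charZero_of_injective_algebraMap (algebraMap ℚ F).injective
  set G : GSection ℚ F Ω U := Pool.Agent.TH213.SEL.ofGal ι hι s with hG
  obtain ⟨i, hi⟩ : ∃ i, Pool.Agent.W623.SecG.At G x e i := by
    by_contra hno
    push Not at hno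
    exact hbad ⟨F, Ω, inferInstance, inferInstance, inferInstance, inferInstance, inferInstance,
      inferInstance, hcl, halg, U, G, x, y, hU, hx, hxy, hno⟩
  have hE : Function.Injective (fun k => (e k : ℚ)) := by
    intro a b h
    have h' : (e a : ℚ) = (e b : ℚ) := h
    exact he (by exact_mod_cast h')
  obtain ⟨l, z, δ, hδ, hl, hAP⟩ := hPr i
  have hxe : ∀ q : ℚ, x - algebraMap ℚ F q ≠ 0 := by
    intro q h
    apply hx
    rw [sub_eq_zero.1 h]
    exact isAlgebraic_algebraMap q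
  have hKu : ∃ j j' : Fin 4, j ≠ j' ∧ ∀ n : ℕ, 0 < n → ∃ (c : ℚ) (w : N), (∀ g, s'.s g w = w) ∧
      algebraMap F N ((x - algebraMap ℚ F ((fun k => (e k : ℚ)) (l j))) /
        (x - algebraMap ℚ F ((fun k => (e k : ℚ)) (l j'))) *
        algebraMap ℚ F (((fun k => (e k : ℚ)) (l j') - (fun k => (e k : ℚ)) i) /
          ((fun k => (e k : ℚ)) (l j) - (fun k => (e k : ℚ)) i))) =
        algebraMap ℚ N c * w ^ n := by
    refine ⟨0, 1, by decide, fun n hn => ?_⟩
    have hd : ∀ j, (e (l j) : ℚ) - e i ≠ 0 := by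
      intro j h
      exact hl j (hE (sub_eq_zero.1 h))
    set f : F := (x - algebraMap ℚ F ((fun k => (e k : ℚ)) (l 0))) /
        (x - algebraMap ℚ F ((fun k => (e k : ℚ)) (l 1))) *
        algebraMap ℚ F (((fun k => (e k : ℚ)) (l 1) - (fun k => (e k : ℚ)) i) /
          ((fun k => (e k : ℚ)) (l 0) - (fun k => (e k : ℚ)) i)) with hf
    have hf0 : f ≠ 0 := mul_ne_zero (div_ne_zero (hxe _) (hxe _))
      ((_root_.map_ne_zero _).2 (div_ne_zero (hd 1) (hd 0)))
    obtain ⟨h, hh⟩ := hroot (algebraMap F M f) n hn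
    rw [φ.commutes] at hh
    have h0 : h ≠ 0 := by
      rintro rfl
      rw [zero_pow hn.ne'] at hh
      exact (_root_.map_ne_zero (algebraMap F N)).2 hf0 hh.symm
    obtain ⟨c, w, hw, hcw⟩ := Pool.Agent.Zk94.BS.kummer_sec s' h0 hn (fun g => by
      rw [hh]
      exact (s'.s g).commutes f)
    exact ⟨c, w, hw, by rw [← hh]; exact hcw⟩
  have hAt : ∀ m m', m ≠ i → m' ≠ i → ∃ γ : M, (∀ g, s.s g γ = γ) ∧
      γ ^ 2 = algebraMap F M ((x - algebraMap ℚ F ((fun k => (e k : ℚ)) m)) *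
        (x - algebraMap ℚ F ((fun k => (e k : ℚ)) m')) *
        algebraMap ℚ F (((fun k => (e k : ℚ)) i - (fun k => (e k : ℚ)) m) *
          ((fun k => (e k : ℚ)) i - (fun k => (e k : ℚ)) m'))) := by
    intro m m' h1 h2
    obtain ⟨γ, h3, h4⟩ := hi m m' h1 h2
    refine ⟨Pool.Agent.TH213.SEL.phi ι hι γ, Pool.Agent.TH213.SEL.fixed_of_ofGal ι hι s h3, ?_⟩
    apply ι.injective
    change ι (Pool.Agent.TH213.SEL.phi ι hι γ ^ 2) = ι (algebraMap F M _)
    rw [map_pow, Pool.Agent.TH213.SEL.e_phi, h4, ι.commutes]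
    congr 1
    simp only [map_mul, map_sub, map_intCast]
    push_cast
    ring
  choose P hP using hgeo
  have h1 := all_val2 Pool.Agent.Zk90.BS.gp2 Pool.Agent.Zk94.BS.ut s
    (Pool.Agent.Zk12.rootN_unr U hU ι hι s.j) s' φ hcomp P hP hx
    (fun k => (e k : ℚ)) i hAt l hl (fun j h => hl j (hE h)) z δ hδ hAP hKu
  obtain ⟨O, hO1, hO2⟩ := Pool.Agent.Zk94.BS.cab ⟨x, hx, hF⟩ φ hroot s s' hcomp P hP
    (t := x - algebraMap ℚ F (e i)) (hxe _) h1
  refine ⟨O, hO2, i, ?_⟩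
  rwa [map_intCast] at hO1

/-- the sections which lift to the absolute Galois group of `F` -/
def BirLiftable {K : Type} [Fintype K] (e : K → ℤ) (d : ℤ) : Prop :=
  ∀ (F Ω M B : Type) [Field F] [Field Ω] [Field M] [Field B] [Algebra ℚ F]
    [Algebra F Ω] [Algebra ℚ Ω] [Algebra F M] [Algebra ℚ M]
    [Algebra ℚ B] [IsScalarTower ℚ F Ω] [IsScalarTower ℚ F M]
    [IsAlgClosure F Ω] [IsAlgClosure ℚ B]
    (x y : F) (U : Set (ValuationSubring F)) (ι : M →ₐ[F] Ω),
    (∀ O ∈ U, ∀ c : ℚ, algebraMap ℚ F c ∈ O) → ι.fieldRange = unramified F Ω U →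
    Transcendental ℚ x → Algebra.IsAlgebraic (IntermediateField.adjoin ℚ {x}) F →
    (d : F) * y ^ 2 = ∏ i, (x - (e i : F)) →
    ∀ (s : GalSection ℚ F M B) (s' : GalSection ℚ F Ω B),
      (∀ g z, ι (s.s g z) = s'.s g (ι z)) →
      ∃ O : ValuationSubring F, s.ArisesFrom O ∧ ∃ i, (x - (e i : F))⁻¹ ∉ O

theorem birLiftable_of {K : Type} [Fintype K] {e : K → ℤ} {d : ℤ} (h : Liftable e d) :
    BirLiftable e d := by
  intro F Ω M B _ _ _ _ _ _ _ _ _ _ _ _ _ _ x y U ι hU hι hx hF hxy s s' hcomp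
  have hcl : IsAlgClosed Ω := IsAlgClosure.isAlgClosed F
  have halg : Algebra.IsAlgebraic F Ω := IsAlgClosure.isAlgebraic
  exact h F Ω M Ω B x y U ι ι hU hι (fun z n hn => IsAlgClosed.exists_pow_nat_eq (ι z) hn) hx hF
    hxy s s' hcomp (Pool.Agent.Zk49.locallyGeometric s')

end Pool.Agent.Zk47.BS
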