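import Mathlib
import Pool.Agent.Zk95.TD.Ex

/-!
# The consecutive integers `0, 1, …, N - 1`
-/

set_option autoImplicit false

namespace Pool.Agent.Zk47.BS.Cons

open Pool.Agent.Zk95.TD

/-- the consecutive integers `0, 1, …, N - 1` -/
def consecutive (N : ℕ) : Fin N → ℤ := fun i => (i : ℕ)

theorem consecutive_inj (N : ℕ) : Function.Injective (consecutive N) := by
  intro a b h
  have h' : ((a : ℕ) : ℤ) = ((b : ℕ) : ℤ) := h
  exact Fin.ext (by exact_mod_cast h')

lemma progressions_cons {N : ℕ} (hN : 16 ≤ N) : Progressions (consecutive N) := by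
  intro i
  obtain ⟨i, hi⟩ := i
  have key : ∀ (n : Fin 4 → ℤ) (z δ : ℚ), δ ≠ 0 → (∀ j, n j ≠ 0 ∧ 0 ≤ (i : ℤ) + n j ∧
      (i : ℤ) + n j < N) → (∀ j : Fin 4, ((n j : ℤ) : ℚ)⁻¹ = z + (j : ℕ) * δ) →
      ∃ (l : Fin 4 → Fin N) (z δ : ℚ), δ ≠ 0 ∧ (∀ j, l j ≠ ⟨i, hi⟩) ∧
        ∀ j : Fin 4, ((consecutive N (l j) : ℚ) - consecutive N ⟨i, hi⟩)⁻¹ = z + (j : ℕ) * δ := by
    intro n z δ hδ h1 h2
    refine ⟨fun j => ⟨((i : ℤ) + n j).toNat, by have := h1 j; omega⟩, z, δ, hδ, ?_, ?_⟩
    · intro j h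
      have h3 := congrArg Fin.val h
      have h4 := h1 j
      simp only at h3
      omega
    · intro j
      rw [← h2 j]
      congr 1
      have h3 := h1 j
      have h4 : (consecutive N ⟨((i : ℤ) + n j).toNat, by omega⟩ : ℤ) = i + n j := by
        simp only [consecutive]
        omega
      rw [h4]
      simp only [consecutive]
      push_cast
      ring
  by_cases h1 : i ≤ 2
  · refine key ![12, 6, 4, 3] (1 / 12) (1 / 12) (by norm_num) ?_ ?_
    · intro j
      fin_cases j <;> simp <;> omega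
    · intro j
      fin_cases j <;> norm_num
  · by_cases h2 : i + 4 ≤ N
    · refine key ![-1, -3, 3, 1] (-1) (2 / 3) (by norm_num) ?_ ?_
      · intro j
        fin_cases j <;> simp <;> omega
      · intro j
        fin_cases j <;> norm_num
    · refine key ![-12, -6, -4, -3] (-1 / 12) (-1 / 12) (by norm_num) ?_ ?_
      · intro j
        fin_cases j <;> simp <;> omega
      · intro j
        fin_cases j <;> norm_num

lemma not_sq_neg {a : ℤ} (h : a < 0) : ¬ IsSquare a := fun h1 => absurd h1.nonneg (by omega)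

/-- the condition for a pair and the integers themselves -/
lemma cross_aux {N : ℕ} (i k : Fin N) (l l' : ℕ) (h1 : l < N) (h2 : l' < N)
    (h3 : l ≠ i) (h4 : l ≠ k) (h5 : l' ≠ i) (h6 : l' ≠ k)
    (h : ¬ IsSquare ((((i : ℕ) : ℤ) - l) * (((i : ℕ) : ℤ) - l') *
      ((((k : ℕ) : ℤ) - l) * (((k : ℕ) : ℤ) - l')))) :
    ∃ l l', l ≠ i ∧ l ≠ k ∧ l' ≠ i ∧ l' ≠ k ∧
      ¬ IsSquare ((consecutive N i - consecutive N l) * (consecutive N i - consecutive N l') *
        ((consecutive N k - consecutive N l) * (consecutive N k - consecutive N l'))) :=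
  ⟨⟨l, h1⟩, ⟨l', h2⟩, fun h => h3 (by rw [← h]), fun h => h4 (by rw [← h]),
    fun h => h5 (by rw [← h]), fun h => h6 (by rw [← h]), h⟩

lemma cross_lt {N : ℕ} (hN : 16 ≤ N) (i k : Fin N) (hik : (i : ℕ) < k) :
    ∃ l l', l ≠ i ∧ l ≠ k ∧ l' ≠ i ∧ l' ≠ k ∧
      ¬ IsSquare ((consecutive N i - consecutive N l) * (consecutive N i - consecutive N l') *
        ((consecutive N k - consecutive N l) * (consecutive N k - consecutive N l'))) := by
  have hk : (k : ℕ) < N := k.2
  by_cases h1 : (k : ℕ) = i + 1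
  · -- neighbours
    by_cases h2 : (k : ℕ) + 2 < N
    · refine cross_aux i k (k + 1) (k + 2) (by omega) h2 (by omega) (by omega) (by omega)
        (by omega) ?_
      rw [h1]
      push_cast
      have : ((((i : ℕ) : ℤ) - ((i : ℕ) + 1 + 1)) * (((i : ℕ) : ℤ) - ((i : ℕ) + 1 + 2)) *
          ((((i : ℕ) : ℤ) + 1 - ((i : ℕ) + 1 + 1)) * (((i : ℕ) : ℤ) + 1 - ((i : ℕ) + 1 + 2)))) =
            12 := by ring
      rw [this]
      exact not_sq_mod (by decide)
    · obtain ⟨m, hm⟩ : ∃ m, (i : ℕ) = m + 2 := ⟨i - 2, by omega⟩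
      refine cross_aux i k m (m + 1) (by omega) (by omega) (by omega) (by omega) (by omega)
        (by omega) ?_
      rw [h1, hm]
      push_cast
      have : (((m : ℤ) + 2 - m) * ((m : ℤ) + 2 - (m + 1)) *
          (((m : ℤ) + 2 + 1 - m) * ((m : ℤ) + 2 + 1 - (m + 1)))) = 12 := by ring
      rw [this]
      exact not_sq_mod (by decide)
  · -- one index inside
    by_cases h2 : 0 < (i : ℕ)
    · refine cross_aux i k (i + 1) 0 (by omega) (by omega) (by omega) (by omega) (by omega)
        (by omega) (not_sq_neg ?_)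
      obtain ⟨m, hm⟩ : ∃ m, (k : ℕ) = i + 2 + m := ⟨k - i - 2, by omega⟩
      rw [hm]
      push_cast
      have : ((((i : ℕ) : ℤ) - ((i : ℕ) + 1)) * (((i : ℕ) : ℤ) - 0) *
          ((((i : ℕ) : ℤ) + 2 + m - ((i : ℕ) + 1)) * (((i : ℕ) : ℤ) + 2 + m - 0))) =
            -(((i : ℕ) : ℤ) * (((m : ℤ) + 1) * (((i : ℕ) : ℤ) + 2 + m))) := by ring
      rw [this]
      have h3 : (0 : ℤ) < (i : ℕ) := by exact_mod_cast h2
      have h4 : (0 : ℤ) ≤ m := Int.natCast_nonneg m
      have : 0 < ((i : ℕ) : ℤ) * (((m : ℤ) + 1) * (((i : ℕ) : ℤ) + 2 + m)) := by positivity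
      omega
    · by_cases h3 : (k : ℕ) + 1 < N
      · refine cross_aux i k 1 (k + 1) (by omega) h3 (by omega) (by omega) (by omega)
          (by omega) (not_sq_neg ?_)
        have h0 : (i : ℕ) = 0 := by omega
        obtain ⟨m, hm⟩ : ∃ m, (k : ℕ) = 2 + m := ⟨k - 2, by omega⟩
        have h4 : (0 : ℤ) ≤ m := Int.natCast_nonneg m
        have h5 : 0 < (3 + (m : ℤ)) * ((m : ℤ) + 1) := by positivity
        refine lt_of_eq_of_lt (b := -((3 + (m : ℤ)) * ((m : ℤ) + 1))) ?_ (by omega)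
        rw [hm, h0]
        push_cast
        ring
      · refine cross_aux i k 1 4 (by omega) (by omega) (by omega) (by omega) (by omega)
          (by omega) ?_
        have h0 : (i : ℕ) = 0 := by omega
        obtain ⟨m, hm⟩ : ∃ m, (k : ℕ) = 15 + m := ⟨k - 15, by omega⟩
        rw [hm, h0]
        push_cast
        rintro ⟨r, hr'⟩
        have hr : 2 * 2 * (((m : ℤ) + 14) * (m + 11)) = r * r := by
          rw [← hr']
          ring
        have h4 : (0 : ℤ) ≤ m := Int.natCast_nonneg m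
        -- `r = 2 s`
        have h5 : (2 : ℤ) ∣ r := by
          have : (2 : ℤ) ∣ r * r := by
            rw [← hr]
            exact ⟨2 * (((m : ℤ) + 14) * (m + 11)), by ring⟩
          rcases Int.prime_two.dvd_or_dvd this with h | h <;> exact h
        obtain ⟨s, rfl⟩ := h5
        have h6 : ((m : ℤ) + 14) * (m + 11) = s * s := by nlinarith
        have h7 : |s| * |s| = s * s := abs_mul_abs_self s
        have h8 : (m : ℤ) + 12 < |s| := by
          by_contra hcon
          rw [not_lt] at hcon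
          have h9 : |s| * |s| ≤ (m + 12) * (m + 12) := mul_self_le_mul_self (abs_nonneg s) hcon
          nlinarith
        have h9 : (m : ℤ) + 13 ≤ |s| := h8
        have h10 : ((m : ℤ) + 13) * (m + 13) ≤ |s| * |s| :=
          mul_self_le_mul_self (by positivity) h9
        nlinarith

lemma crossRatio_cons {N : ℕ} (hN : 16 ≤ N) : CrossRatio (consecutive N) := by
  intro i k hik
  rcases lt_or_gt_of_ne hik with h | h
  · exact cross_lt hN i k h
  · obtain ⟨l, l', h1, h2, h3, h4, h5⟩ := cross_lt hN k i h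
    exact ⟨l, l', h2, h1, h4, h3, by rwa [mul_comm]⟩


end Pool.Agent.Zk47.BS.Cons
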